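import Pool.Agent.Helper36.EP.UnionCount

/-!
# An antichain below a poset
-/

set_option autoImplicit false

namespace Pool.Agent.Helper36.EP

open Relation

variable {T P : Type} [PartialOrder T] [PartialOrder P]

/-- the two parts of the ordinal sum -/
def lo (t : T) : T ⊕ₗ P := toLex (Sum.inl t)
def hi (x : P) : T ⊕ₗ P := toLex (Sum.inr x)

omit [PartialOrder T] [PartialOrder P] in
theorem lo_inj : Function.Injective (lo : T → T ⊕ₗ P) :=
  fun _ _ h => Sum.inl_injective (toLex.injective h)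

omit [PartialOrder T] [PartialOrder P] in
theorem hi_inj : Function.Injective (hi : P → T ⊕ₗ P) :=
  fun _ _ h => Sum.inr_injective (toLex.injective h)

omit [PartialOrder T] [PartialOrder P] in
theorem lo_or_hi (z : T ⊕ₗ P) : (∃ t, z = lo t) ∨ ∃ x, z = hi x := by
  rcases h : ofLex z with t | x
  · left
    exact ⟨t, by rw [lo, ← h, toLex_ofLex]⟩
  · right
    exact ⟨x, by rw [hi, ← h, toLex_ofLex]⟩

omit [PartialOrder T] [PartialOrder P] in
theorem lo_ne_hi (t : T) (x : P) : (lo t : T ⊕ₗ P) ≠ hi x :=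
  fun h => Sum.inl_ne_inr (toLex.injective h)

theorem lo_lt_hi (t : T) (x : P) : (lo t : T ⊕ₗ P) < hi x := Sum.Lex.inl_lt_inr t x

theorem upHi : UpEmb (hi : P → T ⊕ₗ P) :=
  ⟨fun _ _ => Sum.Lex.inr_lt_inr_iff, hi_inj, fun x z h => by
    rcases lo_or_hi z with ⟨t, rfl⟩ | ⟨y, rfl⟩
    · exact absurd h Sum.Lex.not_inr_lt_inl
    · exact ⟨y, rfl⟩⟩

/-- the smallest label of the upper part -/
theorem onPath_below (hT : ∀ s t : T, s ≤ t → s = t) {L : T ⊕ₗ P → ℕ}
    (hL : Function.Injective L) {t₀ : T} (hm : ∀ z, L (lo t₀) ≤ L z) (x : P) :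
    OnPath L (hi x) ↔ OnPath (L ∘ hi) x := by
  constructor
  · rintro ⟨m, hm', h⟩
    have h1 : m = lo t₀ := hL (le_antisymm (hm' _) (hm _))
    rw [h1] at h
    rcases ReflTransGen.cases_head h with h2 | ⟨z, hz, hzx⟩
    · exact absurd h2 (lo_ne_hi _ _)
    · rcases lo_or_hi z with ⟨t, rfl⟩ | ⟨b, rfl⟩
      · have h3 : t₀ < t := Sum.Lex.inl_lt_inl_iff.1 hz.1
        exact absurd (hT _ _ h3.le) h3.ne
      · exact ⟨b, fun w => hz.2 _ (lo_lt_hi _ _), (upHi.rtg L _ _).1 hzx⟩
  · rintro ⟨b, hb, h⟩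
    have h1 : IsSucc L (lo t₀) (hi b) := by
      refine ⟨lo_lt_hi _ _, fun z hz => ?_⟩
      rcases lo_or_hi z with ⟨t, rfl⟩ | ⟨y, rfl⟩
      · have h3 : t₀ < t := Sum.Lex.inl_lt_inl_iff.1 hz
        exact absurd (hT _ _ h3.le) h3.ne
      · exact hb y
    exact ⟨lo t₀, hm, ReflTransGen.head h1 ((upHi.rtg L _ _).2 h)⟩

variable [Fintype T] [Fintype P]

omit [PartialOrder T] [PartialOrder P] in
/-- counting: the small labels cannot all be in the lower part -/
theorem exists_hi_label {L : T ⊕ₗ P → ℕ} {k n K : ℕ} (hr : Set.range L = Set.Ico k (n + k))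
    (hK : k < K) (hKn : K + Fintype.card T ≤ n + k) : ∃ x : P, L (hi x) < K + Fintype.card T := by
  classical
  by_contra hcon
  push Not at hcon
  have h1 : Finset.Ico k (K + Fintype.card T) ⊆ Finset.univ.image (fun t : T => L (lo t)) := by
    intro v hv
    obtain ⟨h2, h3⟩ := Finset.mem_Ico.1 hv
    have h4 : v ∈ Set.range L := by
      rw [hr]
      exact ⟨h2, by omega⟩
    obtain ⟨z, hz⟩ := h4
    rcases lo_or_hi z with ⟨t, rfl⟩ | ⟨y, rfl⟩
    · exact Finset.mem_image.2 ⟨t, Finset.mem_univ _, hz⟩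
    · have := hcon y
      omega
  have h2 := (Finset.card_le_card h1).trans Finset.card_image_le
  rw [Nat.card_Ico, Finset.card_univ] at h2
  omega

theorem below_run (hT : ∀ s t : T, s ≤ t → s = t) {n : ℕ}
    (hn : n = Fintype.card T + Fintype.card P) {L : T ⊕ₗ P → ℕ} (hL : Function.Injective L)
    (hr : Set.range L = Set.Iio n) (k : ℕ) (hk : k ≤ Fintype.card P) :
    ∃ L' : T ⊕ₗ P → ℕ, Rn L k L' ∧ Set.range L' = Set.Ico k (n + k) ∧
      Rn (L ∘ hi) k (L' ∘ hi) ∧ (∀ t : T, L (lo t) ≤ L' (lo t)) ∧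
      ∀ K, k ≤ K → K ≤ Fintype.card P → (∀ t : T, L (lo t) < K + Fintype.card T) →
        ∀ t : T, L' (lo t) < K + Fintype.card T := by
  classical
  induction k with
  | zero =>
    refine ⟨L, Rn.zero L, ?_, Rn.zero _, fun _ => le_rfl, fun _ _ _ h => h⟩
    rw [hr]
    ext v
    simp
  | succ k ih =>
    obtain ⟨L', h1, h2, h3, h4, h5⟩ := ih (by omega)
    have hinj := h1.inj hL
    have hN : ∀ x, L' x < n + k := fun x => by
      have : L' x ∈ Set.Ico k (n + k) := by
        rw [← h2]
        exact ⟨x, rfl⟩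
      exact this.2
    have hge : ∀ x, k ≤ L' x := fun x => by
      have : L' x ∈ Set.Ico k (n + k) := by
        rw [← h2]
        exact ⟨x, rfl⟩
      exact this.1
    have hkr : k ∈ Set.range L' := by
      rw [h2]
      exact ⟨le_rfl, by omega⟩
    obtain ⟨m, hm⟩ := hkr
    have hmin : ∀ z, L' m ≤ L' z := fun z => by
      rw [hm]
      exact hge z
    have hrange : Set.range (stp L' (n + k)) = Set.Ico (k + 1) (n + (k + 1)) := by
      rw [range_stp hinj hmin, h2, hm]
      ext v
      simp only [Set.mem_insert_iff, Set.mem_sdiff, Set.mem_Ico, Set.mem_singleton_iff]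
      omega
    rcases lo_or_hi m with ⟨t₀, rfl⟩ | ⟨b, rfl⟩
    · -- the smallest label is below
      have e1 : stp L' (n + k) ∘ hi = stp (L' ∘ hi) (n + k) :=
        upHi.stp hinj (fun x => onPath_below hT hinj hmin x) _
      have e2 : ∀ t, t ≠ t₀ → stp L' (n + k) (lo t) = L' (lo t) := by
        intro t ht
        refine stp_of_not (not_onPath hinj hmin fun h => ?_) _
        exact ht (hT _ _ (Sum.Lex.inl_le_inl_iff.1 h)).symm
      -- the smallest label of the upper part
      have hne : Nonempty P := Fintype.card_pos_iff.1 (by omega)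
      obtain ⟨b, -, hb⟩ := Finset.exists_min_image Finset.univ (L' ∘ hi)
        ⟨hne.some, Finset.mem_univ _⟩
      have hb' : ∀ y, L' (hi b) ≤ L' (hi y) := fun y => hb y (Finset.mem_univ _)
      have e3 : stp L' (n + k) (lo t₀) = L' (hi b) := by
        have h6 : IsSucc L' (lo t₀) (hi b) := by
          refine ⟨lo_lt_hi _ _, fun z hz => ?_⟩
          rcases lo_or_hi z with ⟨t, rfl⟩ | ⟨y, rfl⟩
          · have h3 : t₀ < t := Sum.Lex.inl_lt_inl_iff.1 hz
            exact absurd (hT _ _ h3.le) h3.ne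
          · exact hb' y
        unfold stp
        rw [nxt_of_succ hinj ⟨lo t₀, hmin, ReflTransGen.refl⟩ h6]
        rfl
      refine ⟨stp L' (n + k), h1.succ hN, hrange, ?_, ?_, ?_⟩
      · rw [e1]
        exact h3.succ fun x => hN _
      · intro t
        by_cases ht : t = t₀
        · rw [ht, e3]
          exact (h4 t₀).trans (hmin _)
        · rw [e2 t ht]
          exact h4 t
      · intro K hK1 hK2 hLK t
        by_cases ht : t = t₀
        · rw [ht, e3]
          obtain ⟨x, hx⟩ := exists_hi_label (T := T) (P := P) (K := K) h2 (by omega) (by omega)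
          exact lt_of_le_of_lt (hb' x) hx
        · rw [e2 t ht]
          exact h5 K (by omega) hK2 hLK t
    · have e1 : stp L' (n + k) ∘ hi = stp (L' ∘ hi) (n + k) :=
        upHi.stp hinj (fun x => upHi.onPath hinj hmin x) _
      have e2 : ∀ t, stp L' (n + k) (lo t) = L' (lo t) := fun t =>
        stp_of_not (not_onPath hinj hmin Sum.Lex.not_inr_le_inl) _
      refine ⟨stp L' (n + k), h1.succ hN, hrange, ?_, ?_, ?_⟩
      · rw [e1]
        exact h3.succ fun x => hN _
      · intro t
        rw [e2]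
        exact h4 t
      · intro K hK1 hK2 hLK t
        rw [e2]
        exact h5 K (by omega) hK2 hLK t

theorem below_srt (hT : ∀ s t : T, s ≤ t → s = t) {n : ℕ}
    (hn : n = Fintype.card T + Fintype.card P) {L : T ⊕ₗ P → ℕ} (hL : Function.Injective L)
    (hr : Set.range L = Set.Iio n) {k : ℕ} (hk : k ≤ Fintype.card P) :
    Srt L k ↔ (∀ t : T, L (lo t) < k + Fintype.card T) ∧ Srt (L ∘ hi) k := by
  classical
  obtain ⟨L', h1, h2, h3, h4, h5⟩ := below_run hT hn hL hr k hk
  have hinj := h1.inj hL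
  rw [h1.srt_iff, h3.srt_iff]
  have hge : ∀ x, k ≤ L' x := fun x => by
    have : L' x ∈ Set.Ico k (n + k) := by
      rw [← h2]
      exact ⟨x, rfl⟩
    exact this.1
  constructor
  · intro h
    refine ⟨fun t => lt_of_le_of_lt (h4 t) ?_, fun x y hxy => h ((upHi.lt _ _).2 hxy)⟩
    -- the labels up to that of `t` are in the lower part
    have h6 : Finset.Icc k (L' (lo t)) ⊆ Finset.univ.image (fun t : T => L' (lo t)) := by
      intro v hv
      obtain ⟨h7, h8⟩ := Finset.mem_Icc.1 hv
      have h9 : v ∈ Set.range L' := by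
        have : L' (lo t) ∈ Set.Ico k (n + k) := by
          rw [← h2]
          exact ⟨_, rfl⟩
        rw [h2]
        exact ⟨h7, lt_of_le_of_lt h8 this.2⟩
      obtain ⟨z, hz⟩ := h9
      rcases lo_or_hi z with ⟨s, rfl⟩ | ⟨y, rfl⟩
      · exact Finset.mem_image.2 ⟨s, Finset.mem_univ _, hz⟩
      · have := h (lo_lt_hi t y)
        omega
    have h7 := (Finset.card_le_card h6).trans Finset.card_image_le
    rw [Nat.card_Icc, Finset.card_univ] at h7
    have := hge (lo t)
    omega
  · rintro ⟨h6, h7⟩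
    have h8 := h5 k le_rfl hk h6
    -- all upper labels are large
    have h9 : Finset.univ.image (fun t : T => L' (lo t)) = Finset.Ico k (k + Fintype.card T) := by
      refine Finset.eq_of_subset_of_card_le ?_ ?_
      · intro v hv
        obtain ⟨t, -, rfl⟩ := Finset.mem_image.1 hv
        exact Finset.mem_Ico.2 ⟨hge _, h8 t⟩
      · rw [Finset.card_image_of_injective (f := fun t : T => L' (lo t)) _
          (fun s t h => lo_inj (hinj h)), Nat.card_Ico, Finset.card_univ]
        omega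
    have h10 : ∀ y : P, k + Fintype.card T ≤ L' (hi y) := by
      intro y
      by_contra hcon
      push Not at hcon
      have h11 : L' (hi y) ∈ Finset.Ico k (k + Fintype.card T) :=
        Finset.mem_Ico.2 ⟨hge _, hcon⟩
      rw [← h9] at h11
      obtain ⟨t, -, ht⟩ := Finset.mem_image.1 h11
      exact lo_ne_hi _ _ (hinj ht)
    intro z w hzw
    rcases lo_or_hi z with ⟨s, rfl⟩ | ⟨x, rfl⟩ <;> rcases lo_or_hi w with ⟨t, rfl⟩ | ⟨y, rfl⟩
    · have h3 : s < t := Sum.Lex.inl_lt_inl_iff.1 hzw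
      exact absurd (hT _ _ h3.le) h3.ne
    · exact lt_of_lt_of_le (h8 s) (h10 y)
    · exact absurd hzw Sum.Lex.not_inr_lt_inl
    · exact h7 ((upHi.lt _ _).1 hzw)

end Pool.Agent.Helper36.EP
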