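import Pool.Agent.Helper36.EP.Below

/-!
# The counts for an antichain below a poset
-/

set_option autoImplicit false

namespace Pool.Agent.Helper36.EP

open Finset

variable {T P : Type} [PartialOrder T] [PartialOrder P] [Fintype T] [Fintype P]

/-- monotonicity of the counts -/
theorem aa_mono (P : Type) [PartialOrder P] [Fintype P] {k l : ℕ} (hkl : k ≤ l) :
    aa P k ≤ aa P l := by
  classical
  rw [aa_eq_cnt (P := P) (I := Fin (Fintype.card P)) (v := fun i => (i : ℕ))
    (fun a b hab => hab) (Fintype.card_fin _), aa_eq_cnt (P := P) (I := Fin (Fintype.card P))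
    (v := fun i => (i : ℕ)) (fun a b hab => hab) (Fintype.card_fin _)]
  unfold cnt
  refine Nat.card_le_card_of_injective
    (fun e : {e : P ≃ Fin (Fintype.card P) // Srt (fun x => (e x : ℕ)) k} =>
      (⟨e.1, Srt.mono (Fin.val_injective.comp e.1.injective) hkl e.2⟩ :
        {e : P ≃ Fin (Fintype.card P) // Srt (fun x => (e x : ℕ)) l})) ?_
  intro e f h
  simp only [Subtype.mk.injEq] at h
  exact Subtype.ext h

theorem card_SB (hT : ∀ s t : T, s ≤ t → s = t) {n : ℕ}
    (hn : n = Fintype.card T + Fintype.card P) (S : Finset (Fin n)) {k : ℕ}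
    (hk : k ≤ Fintype.card P) :
    Nat.card {y : (T ≃ {x // x ∈ S}) × (P ≃ {x // x ∉ S}) //
      Srt (fun z : T ⊕ₗ P => ((glue S y (ofLex z) : Fin n) : ℕ)) k} =
    if S ∈ powersetCard (Fintype.card T) (blw n (k + Fintype.card T)) then
      (Fintype.card T).factorial * aa P k else 0 := by
  classical
  -- the condition
  have h1 : ∀ y : (T ≃ {x // x ∈ S}) × (P ≃ {x // x ∉ S}),
      Srt (fun z : T ⊕ₗ P => ((glue S y (ofLex z) : Fin n) : ℕ)) k ↔
      (∀ t : T, (((y.1 t : {x // x ∈ S}) : Fin n) : ℕ) < k + Fintype.card T) ∧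
      Srt (fun b => (((y.2 b : {x // x ∉ S}) : Fin n) : ℕ)) k := by
    intro y
    have hinj : Function.Injective (fun z : T ⊕ₗ P => ((glue S y (ofLex z) : Fin n) : ℕ)) :=
      fun a b hab => ofLex.injective ((glue S y).injective (Fin.val_injective hab))
    have hran : Set.range (fun z : T ⊕ₗ P => ((glue S y (ofLex z) : Fin n) : ℕ)) =
        Set.Iio n := by
      ext v
      constructor
      · rintro ⟨z, rfl⟩
        exact (glue S y (ofLex z)).2
      · intro hv
        exact ⟨toLex ((glue S y).symm ⟨v, hv⟩), by simp only [ofLex_toLex, Equiv.apply_symm_apply]⟩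
    rw [below_srt hT hn hinj hran hk]
    rfl
  have hS1 : ∀ e : T ≃ {x // x ∈ S},
      (∀ t : T, (((e t : {x // x ∈ S}) : Fin n) : ℕ) < k + Fintype.card T) ↔
        S ⊆ blw n (k + Fintype.card T) := by
    intro e
    constructor
    · intro h i hi
      have := h (e.symm ⟨i, hi⟩)
      rw [e.apply_symm_apply] at this
      exact mem_filter.2 ⟨mem_univ _, this⟩
    · intro h t
      exact (mem_filter.1 (h (e t).2)).2
  have h2 : Nat.card {y : (T ≃ {x // x ∈ S}) × (P ≃ {x // x ∉ S}) //
      Srt (fun z : T ⊕ₗ P => ((glue S y (ofLex z) : Fin n) : ℕ)) k} =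
      Nat.card {e : T ≃ {x // x ∈ S} // S ⊆ blw n (k + Fintype.card T)} *
      cnt P (fun x : {x // x ∉ S} => ((x : Fin n) : ℕ)) k := by
    unfold cnt
    rw [← Nat.card_prod]
    refine Nat.card_congr ((Equiv.subtypeEquivRight
      (fun y => (h1 y).trans (and_congr_left fun _ => hS1 y.1))).trans ?_)
    exact Equiv.subtypeProdEquivProd
      (p := fun e : T ≃ {x // x ∈ S} => S ⊆ blw n (k + Fintype.card T))
      (q := fun e : P ≃ {x // x ∉ S} => Srt (fun b => (((e b : {x // x ∉ S}) : Fin n) : ℕ)) k)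
  rw [h2]
  by_cases hS : S ∈ powersetCard (Fintype.card T) (blw n (k + Fintype.card T))
  · rw [if_pos hS]
    obtain ⟨h3, h4⟩ := mem_powersetCard.1 hS
    have c1 : Fintype.card {x // x ∈ S} = Fintype.card T := by rw [Fintype.card_coe, h4]
    have c2 : Fintype.card {x // x ∉ S} = Fintype.card P := by
      rw [Fintype.card_subtype_compl, Fintype.card_coe, Fintype.card_fin, h4, hn]
      omega
    rw [← aa_eq_cnt (P := P) (v := fun x : {x // x ∉ S} => ((x : Fin n) : ℕ))
      (fun a b hab => hab) c2]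
    congr 1
    rw [Nat.card_congr (Equiv.subtypeUnivEquiv (fun _ => h3)), Nat.card_eq_fintype_card]
    have e0 : T ≃ {x // x ∈ S} := Fintype.equivOfCardEq c1.symm
    rw [Fintype.card_equiv e0]
  · rw [if_neg hS]
    by_cases h3 : S ⊆ blw n (k + Fintype.card T)
    · have h4 : S.card ≠ Fintype.card T := fun h => hS (mem_powersetCard.2 ⟨h3, h⟩)
      have : IsEmpty {e : T ≃ {x // x ∈ S} // S ⊆ blw n (k + Fintype.card T)} :=
        ⟨fun e => h4 (by rw [Fintype.card_congr e.1, Fintype.card_coe])⟩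
      rw [Nat.card_of_isEmpty, zero_mul]
    · have : IsEmpty {e : T ≃ {x // x ∈ S} // S ⊆ blw n (k + Fintype.card T)} :=
        ⟨fun e => h3 e.2⟩
      rw [Nat.card_of_isEmpty, zero_mul]

/-- the counts for an antichain below a poset -/
theorem aa_below (hT : ∀ s t : T, s ≤ t → s = t) {k : ℕ} (hk : k ≤ Fintype.card P) :
    aa (T ⊕ₗ P) k = (k + Fintype.card T).descFactorial (Fintype.card T) * aa P k := by
  classical
  have hn : Fintype.card (T ⊕ₗ P) = Fintype.card T + Fintype.card P := by
    rw [Fintype.card_lex, Fintype.card_sum]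
  rw [aa_eq_cnt (P := T ⊕ₗ P) (I := Fin (Fintype.card (T ⊕ₗ P))) (v := fun i => (i : ℕ))
    (fun a b hab => hab) (Fintype.card_fin _)]
  unfold cnt
  have h1 : Nat.card {e : (T ⊕ₗ P) ≃ Fin (Fintype.card (T ⊕ₗ P)) // Srt (fun x => (e x : ℕ)) k} =
      Nat.card {e : (T ⊕ P) ≃ Fin (Fintype.card (T ⊕ₗ P)) //
        Srt (fun x : T ⊕ₗ P => (e (ofLex x) : ℕ)) k} := by
    refine Nat.card_congr (Equiv.subtypeEquiv (Equiv.equivCongr ofLex (Equiv.refl _)) ?_)
    intro e
    rfl
  rw [h1, card_glue (A := T) (B := P)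
    (fun e => Srt (fun x : T ⊕ₗ P => ((e (ofLex x) : Fin _) : ℕ)) k),
    sum_congr rfl fun S _ => card_SB hT hn S hk, ← sum_filter, sum_const, smul_eq_mul,
    filter_mem_eq_inter, univ_inter, card_powersetCard, card_blw (by omega),
    Nat.descFactorial_eq_factorial_mul_choose]
  ring

theorem desc_step (k r : ℕ) : (k + 1 + r).descFactorial r * (k + 1) =
    (k + r).descFactorial r * (k + 1 + r) := by
  have h1 := Nat.factorial_mul_descFactorial (n := k + 1 + r) (k := r) (by omega)
  have h2 := Nat.factorial_mul_descFactorial (n := k + r) (k := r) (by omega)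
  rw [Nat.add_sub_cancel] at h1 h2
  have h3 : (k + 1 + r).factorial = (k + 1 + r) * (k + r).factorial := by
    have : k + 1 + r = (k + r) + 1 := by ring
    rw [this, Nat.factorial_succ]
  rw [Nat.factorial_succ, h3, ← h2] at h1
  have h4 : 0 < k.factorial := Nat.factorial_pos k
  apply Nat.eq_of_mul_eq_mul_left h4
  linarith

theorem desc_lc (k r : ℕ) : (k + r).descFactorial r * (k + 2 + r).descFactorial r ≤
    (k + 1 + r).descFactorial r ^ 2 := by
  have h1 := desc_step k r
  have h2 := desc_step (k + 1) r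
  set c0 := (k + r).descFactorial r
  set c1 := (k + 1 + r).descFactorial r
  set c2 := (k + 2 + r).descFactorial r
  have h2' : c2 * (k + 2) = c1 * (k + 2 + r) := h2
  have h3 : 0 < (k + 1) * (k + 2) := by positivity
  refine le_of_mul_le_mul_left ?_ h3
  calc (k + 1) * (k + 2) * (c0 * c2) = (k + 1) * c0 * (c2 * (k + 2)) := by ring
    _ = c0 * c1 * ((k + 1) * (k + 2 + r)) := by rw [h2']; ring
    _ ≤ c0 * c1 * ((k + 2) * (k + 1 + r)) := by
        refine Nat.mul_le_mul_left _ ?_
        nlinarith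
    _ = (k + 2) * c1 * (c0 * (k + 1 + r)) := by ring
    _ = (k + 1) * (k + 2) * c1 ^ 2 := by rw [← h1]; ring

/-- closure under putting an antichain below -/
theorem LogConc.below (hT : ∀ s t : T, s ≤ t → s = t) (hP : LogConc P) : LogConc (T ⊕ₗ P) := by
  classical
  have hn : Fintype.card (T ⊕ₗ P) = Fintype.card T + Fintype.card P := by
    rw [Fintype.card_lex, Fintype.card_sum]
  intro i hi hin
  obtain ⟨k, rfl⟩ := Nat.exists_eq_add_of_le' hi
  rw [Nat.add_sub_cancel]
  by_cases h1 : k + 2 ≤ Fintype.card P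
  · have h2 := hP.ext k h1
    have h3 : aa P k * aa P (k + 2) ≤ aa P (k + 1) ^ 2 := by exact_mod_cast h2
    have h4 := desc_lc k (Fintype.card T)
    change aa (T ⊕ₗ P) k * aa (T ⊕ₗ P) (k + 2) ≤ aa (T ⊕ₗ P) (k + 1) ^ 2
    rw [aa_below hT (by omega : k ≤ Fintype.card P), aa_below hT (by omega : k + 2 ≤ Fintype.card P),
      aa_below hT (by omega : k + 1 ≤ Fintype.card P)]
    have h5 := Nat.mul_le_mul h4 h3
    calc _ = (k + Fintype.card T).descFactorial (Fintype.card T) *
          (k + 2 + Fintype.card T).descFactorial (Fintype.card T) * (aa P k * aa P (k + 2)) := by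
            ring
      _ ≤ _ := h5
      _ = _ := by ring
  · -- here everything is sorted
    have h2 : aa (T ⊕ₗ P) (Fintype.card P) = (Fintype.card (T ⊕ₗ P)).factorial := by
      rw [aa_below hT le_rfl, aa_full (P := P) (by omega), hn,
        add_comm (Fintype.card T) (Fintype.card P)]
      have h3 := Nat.factorial_mul_descFactorial (n := Fintype.card P + Fintype.card T)
        (k := Fintype.card T) (by omega)
      rw [Nat.add_sub_cancel] at h3
      rw [← h3, mul_comm]
    have h3 : aa (T ⊕ₗ P) (k + 1) = (Fintype.card (T ⊕ₗ P)).factorial := by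
      refine le_antisymm (aa_le _) ?_
      rw [← h2]
      exact aa_mono _ (by omega)
    rw [h3, sq]
    exact Nat.mul_le_mul (aa_le _) (aa_le _)

end Pool.Agent.Helper36.EP
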