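import Pool.Agent.Helper36.EP.BelowCount

/-!
# A class of posets closed under the two operations
-/

set_option autoImplicit false

namespace Pool.Agent.Helper36.EP

open Relation

section Iso

variable {P Q : Type} [PartialOrder P] [PartialOrder Q]

theorem upIso (f : P ≃o Q) : UpEmb f :=
  ⟨fun _ _ => f.lt_iff_lt, f.injective, fun _ z _ => ⟨f.symm z, (f.apply_symm_apply z).symm⟩⟩

theorem Rn.iso [Finite P] (f : P ≃o Q) {L L' : Q → ℕ} {k : ℕ} (hL : Function.Injective L)
    (h : Rn L k L') : Rn (L ∘ f) k (L' ∘ f) := by
  induction h with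
  | zero => exact Rn.zero _
  | @succ L' k N h hN ih =>
    have hinj := h.inj hL
    rcases isEmpty_or_nonempty P with hP | hP
    · have e : stp L' N ∘ f = stp (L' ∘ f) N := by
        funext x
        exact (hP.false x).elim
      rw [e]
      exact ih.succ fun x => hN _
    · obtain ⟨a, -, ha⟩ := Set.exists_min_image Set.univ (L' ∘ f) (Set.toFinite _)
        ⟨hP.some, trivial⟩
      have ha' : ∀ z, L' (f a) ≤ L' z := fun z => by
        have h1 := ha (f.symm z) trivial
        have h2 : (L' ∘ f) (f.symm z) = L' z := congrArg L' (f.apply_symm_apply z)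
        rw [h2] at h1
        exact h1
      have e := (upIso f).stp hinj (fun x => (upIso f).onPath hinj ha' x) N
      rw [e]
      exact ih.succ fun x => hN _

theorem srt_iso [Finite P] (f : P ≃o Q) {L : Q → ℕ} (hL : Function.Injective L) (k : ℕ) :
    Srt (L ∘ f) k ↔ Srt L k := by
  have : Finite Q := Finite.of_equiv P f.toEquiv
  obtain ⟨L', h⟩ := Rn.exists L k
  rw [h.srt_iff, (h.iso f hL).srt_iff]
  constructor
  · intro h1 x y hxy
    have h2 := h1 (f.symm.strictMono hxy)
    have e1 : (L' ∘ f) (f.symm x) = L' x := congrArg L' (f.apply_symm_apply x)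
    have e2 : (L' ∘ f) (f.symm y) = L' y := congrArg L' (f.apply_symm_apply y)
    rw [e1, e2] at h2
    exact h2
  · intro h1
    exact h1.comp f.strictMono

theorem aa_iso [Fintype P] [Fintype Q] (f : P ≃o Q) (k : ℕ) : aa P k = aa Q k := by
  have hc : Fintype.card P = Fintype.card Q := Fintype.card_congr f.toEquiv
  rw [aa_eq_cnt (P := P) (I := Fin (Fintype.card P)) (v := fun i => (i : ℕ))
    (fun a b hab => hab) (Fintype.card_fin _), aa_eq_cnt (P := Q) (I := Fin (Fintype.card P))
    (v := fun i => (i : ℕ)) (fun a b hab => hab) (by rw [Fintype.card_fin, hc])]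
  unfold cnt
  refine (Nat.card_congr (Equiv.subtypeEquiv (Equiv.equivCongr f.symm.toEquiv (Equiv.refl _))
    ?_)).symm
  intro e
  exact (srt_iso f (L := fun x => (e x : ℕ)) (Fin.val_injective.comp e.injective) k).symm

theorem LogConc.iso [Fintype P] [Fintype Q] (f : P ≃o Q) (h : LogConc Q) : LogConc P := by
  intro i hi hin
  rw [aa_iso f, aa_iso f, aa_iso f]
  exact h i hi (by rwa [← Fintype.card_congr f.toEquiv])

end Iso

/-! ### decompositions -/

section Dec

variable {P : Type} [PartialOrder P]

open Classical in
/-- a disjoint union -/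
noncomputable def isoUnion (p : P → Prop) (h : ∀ x y, p x → ¬ p y → ¬ x ≤ y ∧ ¬ y ≤ x) :
    {x // p x} ⊕ {x // ¬ p x} ≃o P where
  toEquiv := Equiv.sumCompl p
  map_rel_iff' := by
    rintro (x | x) (y | y)
    · change (x : P) ≤ y ↔ _
      exact (Sum.inl_le_inl_iff (a := x) (b := y)).symm
    · constructor
      · intro h1
        exact absurd h1 (h x y x.2 y.2).1
      · intro h1
        exact absurd h1 Sum.not_inl_le_inr
    · constructor
      · intro h1
        exact absurd h1 (h y x y.2 x.2).2
      · intro h1
        exact absurd h1 Sum.not_inr_le_inl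
    · change (x : P) ≤ y ↔ _
      exact (Sum.inr_le_inr_iff (a := x) (b := y)).symm

open Classical in
/-- an ordinal sum -/
noncomputable def isoLex (p : P → Prop) (h : ∀ x y, p x → ¬ p y → x < y) :
    ({x // p x} ⊕ₗ {x // ¬ p x}) ≃o P where
  toEquiv := ofLex.trans (Equiv.sumCompl p)
  map_rel_iff' := by
    intro a b
    rcases lo_or_hi a with ⟨x, rfl⟩ | ⟨x, rfl⟩ <;> rcases lo_or_hi b with ⟨y, rfl⟩ | ⟨y, rfl⟩
    · change (x : P) ≤ y ↔ _
      exact (Sum.Lex.inl_le_inl_iff (a := x) (b := y)).symm
    · constructor
      · intro _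
        exact Sum.Lex.inl_le_inr _ _
      · intro _
        exact (h x y x.2 y.2).le
    · constructor
      · intro h1
        have h2 : (x : P) ≤ y := h1
        exact absurd (lt_of_lt_of_le (h y x y.2 x.2) h2) (lt_irrefl _)
      · intro h1
        exact absurd h1 Sum.Lex.not_inr_le_inl
    · change (x : P) ≤ y ↔ _
      exact (Sum.Lex.inr_le_inr_iff (a := x) (b := y)).symm

end Dec

/-- Any two incomparable elements with a common upper bound have the same elements strictly above
them and the same elements strictly below them. -/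
def Twin (P : Type) [PartialOrder P] : Prop :=
  ∀ x y z : P, x ≤ z → y ≤ z → ¬ x ≤ y → ¬ y ≤ x → ∀ w, (x < w ↔ y < w) ∧ (w < x ↔ w < y)

theorem Twin.sub {P : Type} [PartialOrder P] (h : Twin P) (p : P → Prop) : Twin {x // p x} :=
  fun x y z h1 h2 h3 h4 w => h x y z h1 h2 h3 h4 w

theorem logConc_empty (P : Type) [PartialOrder P] [Fintype P] [IsEmpty P] : LogConc P := by
  intro i hi hin
  rw [Fintype.card_eq_zero] at hin
  omega

theorem Twin.logConc_aux (n : ℕ) : ∀ (P : Type) [PartialOrder P] [Fintype P],
    Fintype.card P ≤ n → Twin P → LogConc P := by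
  classical
  induction n with
  | zero =>
    intro P _ _ hn _
    have : IsEmpty P := Fintype.card_eq_zero_iff.1 (Nat.le_zero.1 hn)
    exact logConc_empty P
  | succ n ih =>
    intro P _ _ hn hP
    rcases isEmpty_or_nonempty P with hE | hE
    · exact logConc_empty P
    obtain ⟨m, -, hm⟩ := (wellFounded_lt (α := P)).has_min Set.univ ⟨hE.some, trivial⟩
    have hmin : ∀ x, ¬ x < m := fun x => hm x trivial
    -- the component of `m`: the minimal elements with the same upper elements, and these
    let tw : P → Prop := fun t => t = m ∨ ((∀ x, ¬ x < t) ∧ ∃ z, t < z ∧ m < z)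
    let K : P → Prop := fun x => tw x ∨ m < x
    have htw : ∀ t, tw t → ∀ x, ¬ x < t := by
      rintro t (rfl | ⟨h, _⟩)
      · exact hmin
      · exact h
    have hup : ∀ t, tw t → ∀ w, t < w ↔ m < w := by
      rintro t (rfl | ⟨h, z, h1, h2⟩) w
      · exact Iff.rfl
      · by_cases htm : t = m
        · rw [htm]
        · have h3 : ¬ t ≤ m := fun h3 => hmin t (lt_of_le_of_ne h3 htm)
          have h4 : ¬ m ≤ t := fun h4 => h m (lt_of_le_of_ne h4 (Ne.symm htm))
          exact (hP t m z h1.le h2.le h3 h4 w).1
    have hK : ∀ x y, K x → ¬ K y → ¬ x ≤ y ∧ ¬ y ≤ x := by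
      intro x y hx hy
      constructor
      · intro hxy
        rcases hx with hx | hx
        · rcases eq_or_lt_of_le hxy with h1 | h1
          · exact hy (Or.inl (h1 ▸ hx))
          · exact hy (Or.inr ((hup x hx y).1 h1))
        · exact hy (Or.inr (lt_of_lt_of_le hx hxy))
      · intro hyx
        rcases hx with hx | hx
        · rcases eq_or_lt_of_le hyx with h1 | h1
          · exact hy (Or.inl (h1 ▸ hx))
          · exact htw x hx y h1
        · apply hy
          by_cases h1 : m ≤ y
          · rcases eq_or_lt_of_le h1 with h2 | h2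
            · exact Or.inl (Or.inl h2.symm)
            · exact Or.inr h2
          · by_cases h2 : y ≤ m
            · exact absurd (le_antisymm h2 (by
                by_contra h3
                exact hmin y (lt_of_le_not_ge h2 h3))).ge h1
            · have h3 := hP y m x hyx hx.le h2 h1
              refine Or.inl (Or.inr ⟨fun w hw => hmin w ((h3 w).2.1 hw), x, ?_, hx⟩)
              exact (h3 x).1.2 hx
    refine LogConc.iso (isoUnion K hK).symm (LogConc.union ?_ ?_)
    · -- the component
      let tK : {x // K x} → Prop := fun x => tw x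
      have hL : ∀ x y : {x // K x}, tK x → ¬ tK y → x < y := by
        intro x y hx hy
        have h1 : m < (y : P) := by
          rcases y.2 with h | h
          · exact absurd h hy
          · exact h
        exact (hup x hx y).2 h1
      refine LogConc.iso (isoLex tK hL).symm (LogConc.below ?_ ?_)
      · intro s t hst
        by_contra hne
        exact htw t t.2 s (lt_of_le_of_ne hst fun h => hne (Subtype.ext (Subtype.ext h)))
      · refine ih _ ?_ ((hP.sub K).sub fun x => ¬ tK x)
        have hmK : K m := Or.inl (Or.inl rfl)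
        have h1 : Fintype.card {x : {x // K x} // ¬ tK x} < Fintype.card {x // K x} :=
          Fintype.card_subtype_lt (x := ⟨m, hmK⟩) (fun h => h (Or.inl rfl))
        have h2 : Fintype.card {x // K x} ≤ Fintype.card P := Fintype.card_subtype_le _
        omega
    · refine ih _ ?_ (hP.sub fun x => ¬ K x)
      have hmK : K m := Or.inl (Or.inl rfl)
      have h1 : Fintype.card {x // ¬ K x} < Fintype.card P :=
        Fintype.card_subtype_lt (x := m) (fun h => h hmK)
      omega

/-- log-concavity for the class -/
theorem Twin.logConc {P : Type} [PartialOrder P] [Fintype P] (h : Twin P) : LogConc P :=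
  Twin.logConc_aux _ P le_rfl h

end Pool.Agent.Helper36.EP
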