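import Mathlib

/-!
# Lorentzian 3 x 3 matrices: the sum of the slices of a symmetric tensor with nonnegative entries
-/

set_option autoImplicit false

open Matrix Filter Topology

namespace Pool.Agent.Helper36.EP

/-- the bilinear form of a matrix -/
def bf (M : Matrix (Fin 3) (Fin 3) ℝ) (u v : Fin 3 → ℝ) : ℝ := u ⬝ᵥ (M *ᵥ v)

theorem bf_add_left (M : Matrix (Fin 3) (Fin 3) ℝ) (u u' v : Fin 3 → ℝ) :
    bf M (u + u') v = bf M u v + bf M u' v := by
  unfold bf; rw [add_dotProduct]

theorem bf_add_right (M : Matrix (Fin 3) (Fin 3) ℝ) (u v v' : Fin 3 → ℝ) :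
    bf M u (v + v') = bf M u v + bf M u v' := by
  unfold bf; rw [mulVec_add, dotProduct_add]

theorem bf_smul_left (M : Matrix (Fin 3) (Fin 3) ℝ) (t : ℝ) (u v : Fin 3 → ℝ) :
    bf M (t • u) v = t * bf M u v := by
  unfold bf; rw [smul_dotProduct, smul_eq_mul]

theorem bf_smul_right (M : Matrix (Fin 3) (Fin 3) ℝ) (t : ℝ) (u v : Fin 3 → ℝ) :
    bf M u (t • v) = t * bf M u v := by
  unfold bf; rw [mulVec_smul, dotProduct_smul, smul_eq_mul]

theorem bf_comm {M : Matrix (Fin 3) (Fin 3) ℝ} (hM : M.IsSymm) (u v : Fin 3 → ℝ) :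
    bf M u v = bf M v u := by
  unfold bf
  rw [dotProduct_mulVec, ← mulVec_transpose, hM.eq, dotProduct_comm]

/-- reverse Cauchy-Schwarz from a vector with nonpositive form on the line through `u`, `e` -/
theorem rcs_of_line {M : Matrix (Fin 3) (Fin 3) ℝ} (hM : M.IsSymm) {u e : Fin 3 → ℝ} (τ : ℝ)
    (h : bf M (u + τ • e) (u + τ • e) ≤ 0) (he : 0 ≤ bf M e e) :
    bf M e e * bf M u u ≤ bf M u e ^ 2 := by
  rw [bf_add_left, bf_add_right, bf_add_right, bf_smul_left, bf_smul_left, bf_smul_right,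
    bf_smul_right, bf_comm hM e u] at h
  nlinarith [mul_nonneg he (neg_nonneg.2 h), sq_nonneg (bf M u e + τ * bf M e e)]

/-- reverse Cauchy-Schwarz with respect to `e` gives it with respect to `w` -/
theorem rcs_change {M : Matrix (Fin 3) (Fin 3) ℝ} (hM : M.IsSymm) {e w : Fin 3 → ℝ}
    (h : ∀ u, bf M e e * bf M u u ≤ bf M u e ^ 2) (he : 0 < bf M e e) (hw : 0 ≤ bf M w w)
    (hwe : bf M w e ≠ 0) (u : Fin 3 → ℝ) : bf M w w * bf M u u ≤ bf M u w ^ 2 := by
  refine rcs_of_line hM (-(bf M u e / bf M w e)) ?_ hw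
  have h1 := h (u + (-(bf M u e / bf M w e)) • w)
  have h2 : bf M (u + (-(bf M u e / bf M w e)) • w) e = 0 := by
    rw [bf_add_left, bf_smul_left]
    field_simp
    ring
  rw [h2] at h1
  by_contra h3
  push Not at h3
  nlinarith [mul_pos he h3]

/-- a form below the square of a linear functional -/
theorem rcs_of_le_sq {M : Matrix (Fin 3) (Fin 3) ℝ} (hM : M.IsSymm) {l e : Fin 3 → ℝ}
    (h : ∀ u, bf M u u ≤ (l ⬝ᵥ u) ^ 2) (he : 0 < bf M e e) (u : Fin 3 → ℝ) :
    bf M e e * bf M u u ≤ bf M u e ^ 2 := by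
  have hle : l ⬝ᵥ e ≠ 0 := by
    intro h0
    have := h e
    rw [h0] at this
    nlinarith
  refine rcs_of_line hM (-((l ⬝ᵥ u) / (l ⬝ᵥ e))) ?_ he.le
  have h1 := h (u + (-((l ⬝ᵥ u) / (l ⬝ᵥ e))) • e)
  have h2 : l ⬝ᵥ (u + (-((l ⬝ᵥ u) / (l ⬝ᵥ e))) • e) = 0 := by
    rw [dotProduct_add, dotProduct_smul, smul_eq_mul]
    field_simp
    ring
  rw [h2] at h1
  simpa using h1

/-- Perron-Frobenius: a nonnegative symmetric matrix `N` with `u N u <= |N u|^2` and a positive
fixed vector has at most one positive eigenvalue -/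
theorem pf {N : Matrix (Fin 3) (Fin 3) ℝ} (hN : N.IsSymm) (h0 : ∀ i j, 0 ≤ N i j)
    (h2 : ∀ j, 0 < N 2 j) {φ : Fin 3 → ℝ} (hφ : ∀ i, 0 < φ i) (hfix : N *ᵥ φ = φ)
    (hsq : ∀ u, bf N u u ≤ (N *ᵥ u) ⬝ᵥ (N *ᵥ u)) :
    ∃ l : Fin 3 → ℝ, ∀ u, bf N u u ≤ (l ⬝ᵥ u) ^ 2 := by
  have hH : N.IsHermitian := by
    rw [IsHermitian, conjTranspose_eq_transpose_of_trivial]
    exact hN
  set b := hH.eigenvectorBasis with hb
  set lam := hH.eigenvalues with hlam
  have hev : ∀ i, N *ᵥ (b i).ofLp = lam i • (b i).ofLp := fun i => by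
    exact hH.mulVec_eigenvectorBasis i
  have hnorm : ∀ i j, (b i).ofLp ⬝ᵥ (b j).ofLp = if i = j then (1 : ℝ) else 0 := by
    intro i j
    have h1 := orthonormal_iff_ite.1 b.orthonormal i j
    rw [EuclideanSpace.inner_eq_star_dotProduct] at h1
    rw [dotProduct_comm]
    simpa using h1
  -- absolute values of eigenvectors with positive eigenvalue
  have key : ∀ i, 0 < lam i → (∀ k, 0 < (b i).ofLp k) ∨ (∀ k, (b i).ofLp k < 0) := by
    intro i hi
    set v : Fin 3 → ℝ := (b i).ofLp with hv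
    have hNv : N *ᵥ v = lam i • v := hev i
    have hvv : v ⬝ᵥ v = 1 := by
      have := hnorm i i
      simpa using this
    -- the eigenvalue is at least one
    have hge : 1 ≤ lam i := by
      have h1 := hsq v
      unfold bf at h1
      rw [hNv, dotProduct_smul, smul_dotProduct, dotProduct_smul, hvv] at h1
      simp only [smul_eq_mul, mul_one] at h1
      nlinarith
    set a : Fin 3 → ℝ := fun k => |v k| with ha
    have hNa : ∀ k, lam i * a k ≤ (N *ᵥ a) k := by
      intro k
      have h1 : lam i * a k = |(N *ᵥ v) k| := by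
        rw [hNv]
        simp only [Pi.smul_apply, smul_eq_mul, abs_mul, ha, abs_of_pos hi]
      rw [h1]
      simp only [mulVec, dotProduct]
      refine (Finset.abs_sum_le_sum_abs _ _).trans (le_of_eq (Finset.sum_congr rfl fun j _ => ?_))
      rw [abs_mul, abs_of_nonneg (h0 k j)]
    -- the sum against the positive fixed vector
    have hsum : φ ⬝ᵥ (N *ᵥ a) = φ ⬝ᵥ a := by
      rw [dotProduct_mulVec, ← mulVec_transpose, hN.eq, hfix]
    have heq : ∀ k, (N *ᵥ a) k = a k := by
      have h1 : ∀ k, a k ≤ (N *ᵥ a) k := by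
        intro k
        have h3 : 0 ≤ a k := abs_nonneg _
        nlinarith [hNa k]
      have h4 : ∑ k, φ k * ((N *ᵥ a) k - a k) = 0 := by
        have h5 : ∑ k, φ k * ((N *ᵥ a) k - a k) = φ ⬝ᵥ (N *ᵥ a) - φ ⬝ᵥ a := by
          simp only [dotProduct, ← Finset.sum_sub_distrib, mul_sub]
        rw [h5, hsum, sub_self]
      intro k
      have h6 := (Finset.sum_eq_zero_iff_of_nonneg (fun k _ => mul_nonneg (hφ k).le
        (sub_nonneg.2 (h1 k)))).1 h4 k (Finset.mem_univ k)
      rcases mul_eq_zero.1 h6 with h7 | h7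
      · exact absurd h7 (hφ k).ne'
      · linarith
    -- equality in the triangle inequality in the row `2`
    have hapos2 : 0 < a 2 := by
      by_contra hcon
      have ha2 : a 2 = 0 := le_antisymm (not_lt.1 hcon) (abs_nonneg _)
      have h1 : ∑ j, N 2 j * a j = 0 := by
        have := heq 2
        rw [ha2] at this
        simpa [mulVec, dotProduct] using this
      have h3 : ∀ j, a j = 0 := by
        intro j
        have h6 := (Finset.sum_eq_zero_iff_of_nonneg (fun k _ => mul_nonneg (h2 k).le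
          (abs_nonneg (v k)))).1 h1 j (Finset.mem_univ j)
        rcases mul_eq_zero.1 h6 with h7 | h7
        · exact absurd h7 (h2 j).ne'
        · exact h7
      have h4 : v = 0 := by
        funext j
        exact abs_eq_zero.1 (h3 j)
      rw [h4] at hvv
      simp at hvv
    have hapos : ∀ k, 0 < a k := by
      intro k
      have h1 := heq k
      have h3 : N k 2 * a 2 ≤ (N *ᵥ a) k := by
        simp only [mulVec, dotProduct]
        exact Finset.single_le_sum (f := fun j => N k j * a j)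
          (fun j _ => mul_nonneg (h0 k j) (abs_nonneg _)) (Finset.mem_univ 2)
      have h4 : 0 < N k 2 := by
        have := h2 k
        rwa [← hN.apply 2 k] at this
      rw [h1] at h3
      exact lt_of_lt_of_le (mul_pos h4 hapos2) h3
    have hlam1 : lam i = 1 := by
      have h1 := hNa 2
      rw [heq 2] at h1
      nlinarith
    -- signs
    have hsig : |∑ j, N 2 j * v j| = ∑ j, |N 2 j * v j| := by
      have h1 : (N *ᵥ v) 2 = v 2 := by rw [hNv, hlam1, one_smul]
      have h3 : (N *ᵥ a) 2 = |v 2| := heq 2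
      have h4 : ∑ j, N 2 j * v j = v 2 := by simpa [mulVec, dotProduct] using h1
      have h5 : ∑ j, |N 2 j * v j| = (N *ᵥ a) 2 := by
        simp only [mulVec, dotProduct, ha]
        exact Finset.sum_congr rfl fun j _ => by rw [abs_mul, abs_of_pos (h2 j)]
      rw [h4, h5, h3]
    rcases le_total 0 (∑ j, N 2 j * v j) with hp | hp
    · left
      rw [abs_of_nonneg hp] at hsig
      have h1 : ∑ j, (|N 2 j * v j| - N 2 j * v j) = 0 := by
        rw [Finset.sum_sub_distrib, hsig, sub_self]
      intro k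
      have h6 := (Finset.sum_eq_zero_iff_of_nonneg (fun k _ => sub_nonneg.2
        (le_abs_self (N 2 k * v k)))).1 h1 k (Finset.mem_univ k)
      have h7 : 0 ≤ N 2 k * v k := by
        have := abs_nonneg (N 2 k * v k)
        linarith
      have h8 : 0 ≤ v k := nonneg_of_mul_nonneg_right h7 (h2 k)
      exact lt_of_le_of_ne h8 (fun h => absurd (hapos k) (by simp [ha, ← h]))
    · right
      rw [abs_of_nonpos hp] at hsig
      have h1 : ∑ j, (|N 2 j * v j| + N 2 j * v j) = 0 := by
        rw [Finset.sum_add_distrib]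
        linarith
      intro k
      have h6 := (Finset.sum_eq_zero_iff_of_nonneg (fun k _ => by
        have := neg_abs_le (N 2 k * v k)
        linarith)).1 h1 k (Finset.mem_univ k)
      have h7 : N 2 k * v k ≤ 0 := by
        have := abs_nonneg (N 2 k * v k)
        linarith
      have h8 : v k ≤ 0 := by
        by_contra hcon
        push Not at hcon
        nlinarith [mul_pos (h2 k) hcon]
      exact lt_of_le_of_ne h8 (fun h => absurd (hapos k) (by simp [ha, h]))
  -- at most one positive eigenvalue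
  have huniq : ∀ i j, 0 < lam i → 0 < lam j → i = j := by
    intro i j hi hj
    by_contra hij
    have h1 := hnorm i j
    rw [if_neg hij] at h1
    have hne : (b i).ofLp ⬝ᵥ (b j).ofLp ≠ 0 := by
      rcases key i hi with hp | hp <;> rcases key j hj with hq | hq
      · refine ne_of_gt (Finset.sum_pos (fun k _ => mul_pos (hp k) (hq k)) ⟨0, Finset.mem_univ 0⟩)
      · refine ne_of_lt (Finset.sum_neg (fun k _ => mul_neg_of_pos_of_neg (hp k) (hq k))
          ⟨0, Finset.mem_univ 0⟩)
      · refine ne_of_lt (Finset.sum_neg (fun k _ => mul_neg_of_neg_of_pos (hp k) (hq k))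
          ⟨0, Finset.mem_univ 0⟩)
      · refine ne_of_gt (Finset.sum_pos (fun k _ => mul_pos_of_neg_of_neg (hp k) (hq k))
          ⟨0, Finset.mem_univ 0⟩)
    exact hne h1
  -- the expansion
  have hexp : ∀ u : Fin 3 → ℝ, bf N u u = ∑ i, lam i * ((b i).ofLp ⬝ᵥ u) ^ 2 := by
    intro u
    have h1 : u = ∑ i, ((b i).ofLp ⬝ᵥ u) • (b i).ofLp := by
      have h3 := b.sum_repr' (WithLp.toLp 2 u)
      have h4 := congrArg WithLp.ofLp h3
      rw [WithLp.ofLp_sum] at h4
      simp only [WithLp.ofLp_smul] at h4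
      refine h4.symm.trans (Finset.sum_congr rfl fun i _ => ?_)
      congr 1
      rw [EuclideanSpace.inner_eq_star_dotProduct]
      simp [dotProduct_comm]
    have h2' : N *ᵥ u = ∑ i, ((b i).ofLp ⬝ᵥ u) • (lam i • (b i).ofLp) := by
      conv_lhs => rw [h1]
      rw [mulVec_sum]
      refine Finset.sum_congr rfl fun i _ => ?_
      rw [mulVec_smul, hev i]
    unfold bf
    rw [h2', dotProduct_sum]
    refine Finset.sum_congr rfl fun i _ => ?_
    rw [dotProduct_smul, dotProduct_smul, dotProduct_comm u]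
    simp only [smul_eq_mul]
    ring
  by_cases hex : ∃ i, 0 < lam i
  · obtain ⟨i, hi⟩ := hex
    refine ⟨Real.sqrt (lam i) • (b i).ofLp, fun u => ?_⟩
    rw [hexp u, smul_dotProduct, smul_eq_mul, mul_pow, Real.sq_sqrt hi.le]
    rw [← Finset.add_sum_erase _ _ (Finset.mem_univ i)]
    have h1 : ∑ j ∈ Finset.univ.erase i, lam j * ((b j).ofLp ⬝ᵥ u) ^ 2 ≤ 0 := by
      refine Finset.sum_nonpos fun j hj => ?_
      have hji : j ≠ i := Finset.ne_of_mem_erase hj
      have : lam j ≤ 0 := by
        by_contra hcon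
        push Not at hcon
        exact hji (huniq j i hcon hi)
      exact mul_nonpos_of_nonpos_of_nonneg this (sq_nonneg _)
    linarith
  · push Not at hex
    refine ⟨0, fun u => ?_⟩
    rw [hexp u, zero_dotProduct]
    have h1 : ∑ j, lam j * ((b j).ofLp ⬝ᵥ u) ^ 2 ≤ 0 :=
      Finset.sum_nonpos fun j _ => mul_nonpos_of_nonpos_of_nonneg (hex j) (sq_nonneg _)
    simpa using h1

end Pool.Agent.Helper36.EP
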