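import Pool.Agent.Helper36.EP.Cubic

/-!
# The cubic lemma: positive combinations of the slices of a symmetric nonnegative tensor
-/

set_option autoImplicit false

open Matrix Filter Topology

namespace Pool.Agent.Helper36.EP

/-- the last basis vector -/
def e2 : Fin 3 → ℝ := Pi.single 2 1

theorem bf_e2 (M : Matrix (Fin 3) (Fin 3) ℝ) : bf M e2 e2 = M 2 2 := by
  unfold bf e2
  rw [single_one_dotProduct, mulVec_single_one]
  rfl

theorem bf_u_e2 (M : Matrix (Fin 3) (Fin 3) ℝ) (u : Fin 3 → ℝ) :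
    bf M u e2 = ∑ i, u i * M i 2 := by
  unfold bf e2
  rw [mulVec_single_one]
  rfl

theorem cubic {T : Fin 3 → Matrix (Fin 3) (Fin 3) ℝ} (hs1 : ∀ i j k, T i j k = T j i k)
    (hs2 : ∀ i, (T i).IsSymm) (h0 : ∀ i j k, 0 ≤ T i j k) (h2 : ∀ i, 0 < T i 2 2)
    (hR : ∀ i u, bf (T i) e2 e2 * bf (T i) u u ≤ bf (T i) u e2 ^ 2) {w : Fin 3 → ℝ}
    (hw : ∀ i, 0 < w i) (u : Fin 3 → ℝ) :
    bf (∑ k, w k • T k) e2 e2 * bf (∑ k, w k • T k) u u ≤ bf (∑ k, w k • T k) u e2 ^ 2 := by
  set M : Matrix (Fin 3) (Fin 3) ℝ := ∑ k, w k • T k with hM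
  have hMij : ∀ i j, M i j = ∑ k, w k * T k i j := by
    intro i j
    rw [hM, Matrix.sum_apply]
    rfl
  have hMs : M.IsSymm := by
    refine Matrix.IsSymm.ext fun i j => ?_
    rw [hMij, hMij]
    exact Finset.sum_congr rfl fun k _ => by rw [(hs2 k).apply i j]
  have hM0 : ∀ i j, 0 ≤ M i j := fun i j => by
    rw [hMij]
    exact Finset.sum_nonneg fun k _ => mul_nonneg (hw k).le (h0 k i j)
  have hM2 : ∀ j, 0 < M 2 j := fun j => by
    rw [hMij]
    have h1 : w 2 * T 2 2 j ≤ ∑ k, w k * T k 2 j :=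
      Finset.single_le_sum (f := fun k => w k * T k 2 j)
        (fun k _ => mul_nonneg (hw k).le (h0 k 2 j)) (Finset.mem_univ 2)
    have h3 : T 2 2 j = T j 2 2 := by
      rw [← (hs2 2).apply 2 j, hs1 2 j 2]
    rw [h3] at h1
    exact lt_of_lt_of_le (mul_pos (hw 2) (h2 j)) h1
  have hMi2 : ∀ i, 0 < M i 2 := fun i => by
    have := hM2 i
    rwa [← hMs.apply 2 i] at this
  have hbfM : ∀ x y, bf M x y = ∑ k, w k * bf (T k) x y := by
    intro x y
    unfold bf
    rw [hM]
    have h1 : (∑ k, w k • T k) *ᵥ y = ∑ k, w k • (T k *ᵥ y) := by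
      rw [Matrix.sum_mulVec]
      exact Finset.sum_congr rfl fun k _ => by rw [smul_mulVec]
    rw [h1, dotProduct_sum]
    exact Finset.sum_congr rfl fun k _ => by rw [dotProduct_smul, smul_eq_mul]
  -- rows of `M` and the slices
  have hrow : ∀ k v, bf (T k) v w = (M *ᵥ v) k := by
    intro k v
    unfold bf
    simp only [mulVec, dotProduct, hMij, Finset.mul_sum, Finset.sum_mul]
    refine Finset.sum_congr rfl fun i _ => Finset.sum_congr rfl fun j _ => ?_
    have h1 : T k i j = T j k i := by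
      rw [hs1 k i j, ← (hs2 i).apply k j, hs1 i j k, ← (hs2 j).apply i k]
    rw [h1]
    ring
  have hMw : ∀ i, 0 < (M *ᵥ w) i := by
    intro i
    simp only [mulVec, dotProduct]
    exact lt_of_lt_of_le (mul_pos (hMi2 i) (hw 2))
      (Finset.single_le_sum (f := fun j => M i j * w j)
        (fun j _ => mul_nonneg (hM0 i j) (hw j).le) (Finset.mem_univ 2))
  set d : Fin 3 → ℝ := fun i => (M *ᵥ w) i / w i with hd
  have hdpos : ∀ i, 0 < d i := fun i => div_pos (hMw i) (hw i)
  set s : Fin 3 → ℝ := fun i => Real.sqrt (d i) with hs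
  have hspos : ∀ i, 0 < s i := fun i => Real.sqrt_pos.2 (hdpos i)
  have hss : ∀ i, s i * s i = d i := fun i => Real.mul_self_sqrt (hdpos i).le
  -- the key inequality
  have hkey : ∀ v, bf M v v ≤ ∑ i, (M *ᵥ v) i ^ 2 / d i := by
    intro v
    rw [hbfM]
    refine Finset.sum_le_sum fun k _ => ?_
    have hww : bf (T k) w w = (M *ᵥ w) k := hrow k w
    have hwe : bf (T k) w e2 ≠ 0 := by
      rw [bf_u_e2]
      refine ne_of_gt (lt_of_lt_of_le (mul_pos (hw 2) (h2 k))
        (Finset.single_le_sum (f := fun i => w i * T k i 2)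
          (fun i _ => mul_nonneg (hw i).le (h0 k i 2)) (Finset.mem_univ 2)))
    have h1 := rcs_change (hs2 k) (hR k) (by rw [bf_e2]; exact h2 k)
      (by rw [hww]; exact (hMw k).le) hwe v
    rw [hww, hrow k v] at h1
    have h3 : (M *ᵥ v) k ^ 2 / d k = w k * ((M *ᵥ v) k ^ 2 / (M *ᵥ w) k) := by
      simp only [hd]
      have := (hMw k).ne'
      have := (hw k).ne'
      field_simp
    rw [h3]
    refine mul_le_mul_of_nonneg_left ?_ (hw k).le
    rw [le_div_iff₀ (hMw k)]
    linarith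
  -- the scaled matrix
  set N : Matrix (Fin 3) (Fin 3) ℝ := fun i j => M i j / (s i * s j) with hN
  have hNs : N.IsSymm := by
    refine Matrix.IsSymm.ext fun i j => ?_
    simp only [hN]
    rw [hMs.apply i j, mul_comm (s i)]
  have hNv : ∀ v i, (N *ᵥ v) i = (M *ᵥ fun j => v j / s j) i / s i := by
    intro v i
    simp only [mulVec, dotProduct, hN]
    rw [Finset.sum_div]
    refine Finset.sum_congr rfl fun j _ => ?_
    have := (hspos i).ne'
    have := (hspos j).ne'
    field_simp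
  have hNbf : ∀ v, bf N v v = bf M (fun j => v j / s j) (fun j => v j / s j) := by
    intro v
    unfold bf
    simp only [dotProduct, hNv]
    refine Finset.sum_congr rfl fun j _ => ?_
    ring
  obtain ⟨l, hl⟩ := pf (N := N) hNs
    (fun i j => div_nonneg (hM0 i j) (mul_pos (hspos i) (hspos j)).le)
    (fun j => div_pos (hM2 j) (mul_pos (hspos 2) (hspos j)))
    (φ := fun i => s i * w i) (fun i => mul_pos (hspos i) (hw i)) (by
      funext i
      rw [hNv]
      have h1 : (fun j => s j * w j / s j) = w := by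
        funext j
        rw [mul_div_cancel_left₀ _ (hspos j).ne']
      rw [h1, div_eq_iff (hspos i).ne']
      have h3 : (M *ᵥ w) i = d i * w i := by
        simp only [hd]
        rw [div_mul_cancel₀ _ (hw i).ne']
      rw [h3, ← hss i]
      ring) (by
      intro v
      rw [hNbf]
      refine (hkey _).trans (le_of_eq ?_)
      simp only [dotProduct, hNv]
      refine Finset.sum_congr rfl fun i _ => ?_
      rw [← hss i]
      have := (hspos i).ne'
      field_simp)
  refine rcs_of_le_sq hMs (l := fun j => l j * s j) ?_ (by rw [bf_e2]; exact hM2 2) u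
  intro v
  have h1 := hl (fun j => s j * v j)
  rw [hNbf] at h1
  have h3 : (fun j => s j * v j / s j) = v := by
    funext j
    rw [mul_div_cancel_left₀ _ (hspos j).ne']
  rw [h3] at h1
  refine h1.trans (le_of_eq ?_)
  congr 1
  simp only [dotProduct]
  exact Finset.sum_congr rfl fun j _ => by ring

/-- the limit case: the sum of the first two slices -/
theorem cubic_limit {T : Fin 3 → Matrix (Fin 3) (Fin 3) ℝ} (hs1 : ∀ i j k, T i j k = T j i k)
    (hs2 : ∀ i, (T i).IsSymm) (h0 : ∀ i j k, 0 ≤ T i j k) (h2 : ∀ i, 0 < T i 2 2)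
    (hR : ∀ i u, bf (T i) e2 e2 * bf (T i) u u ≤ bf (T i) u e2 ^ 2) (u : Fin 3 → ℝ) :
    (bf (T 0) e2 e2 + bf (T 1) e2 e2) * (bf (T 0) u u + bf (T 1) u u) ≤
      (bf (T 0) u e2 + bf (T 1) u e2) ^ 2 := by
  have hadd : ∀ (ε : ℝ) x y, bf (∑ k, (![1, 1, ε] : Fin 3 → ℝ) k • T k) x y =
      bf (T 0) x y + bf (T 1) x y + ε * bf (T 2) x y := by
    intro ε x y
    unfold bf
    rw [Matrix.sum_mulVec, dotProduct_sum, Fin.sum_univ_three]
    simp only [smul_mulVec, dotProduct_smul, smul_eq_mul]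
    change (1 : ℝ) * _ + 1 * _ + ε * _ = _
    ring
  have h1 : ∀ ε : ℝ, 0 < ε →
      (bf (T 0) e2 e2 + bf (T 1) e2 e2 + ε * bf (T 2) e2 e2) *
        (bf (T 0) u u + bf (T 1) u u + ε * bf (T 2) u u) ≤
      (bf (T 0) u e2 + bf (T 1) u e2 + ε * bf (T 2) u e2) ^ 2 := by
    intro ε hε
    have h3 := cubic hs1 hs2 h0 h2 hR (w := ![1, 1, ε]) (by
      intro i
      fin_cases i
      · exact one_pos
      · exact one_pos
      · exact hε) u
    rwa [hadd, hadd, hadd] at h3
  have hF : Continuous fun ε : ℝ => (bf (T 0) e2 e2 + bf (T 1) e2 e2 + ε * bf (T 2) e2 e2) *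
        (bf (T 0) u u + bf (T 1) u u + ε * bf (T 2) u u) := by fun_prop
  have hG : Continuous fun ε : ℝ =>
      (bf (T 0) u e2 + bf (T 1) u e2 + ε * bf (T 2) u e2) ^ 2 := by fun_prop
  have h3 := le_of_tendsto_of_tendsto ((hF.tendsto 0).mono_left nhdsWithin_le_nhds)
    ((hG.tendsto 0).mono_left (nhdsWithin_le_nhds (s := Set.Ioi 0)))
    (eventually_mem_nhdsWithin.mono fun ε hε => h1 ε hε)
  simpa using h3

end Pool.Agent.Helper36.EP
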