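import Mathlib

/-!
# Extended promotion on the labelings of a finite poset

The label of an element is a natural number; labelings of an `n`-element poset have the labels
`1, ..., n`.
-/

set_option autoImplicit false

namespace Pool.Agent.Helper36.EP

variable {P : Type} [PartialOrder P]

/-- `y` is the `L`-successor of `x`: it lies above `x` and has the smallest label among all
elements strictly above `x`. -/
def IsSucc (L : P → ℕ) (x y : P) : Prop := x < y ∧ ∀ z, x < z → L y ≤ L z

/-- The elements of the promotion path: it starts at the element with the smallest label (the
label `1` in a labeling) and goes from every element to its `L`-successor. -/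
def OnPath (L : P → ℕ) (x : P) : Prop :=
  ∃ m : P, (∀ z, L m ≤ L z) ∧ Relation.ReflTransGen (IsSucc L) m x

open Classical in
/-- Extended promotion: elements off the path lose one, an element of the path gets the label of
its successor minus one, the last element of the path (a maximal element) gets the label `n`. -/
noncomputable def prom [Fintype P] (L : P → ℕ) (x : P) : ℕ :=
  if OnPath L x then
    if h : ∃ y, IsSucc L x y then L h.choose - 1 else Fintype.card P
  else L x - 1

/-- A bijection onto `Fin n` as a labeling with the labels `1, ..., n`. -/
def lab {n : ℕ} (e : P ≃ Fin n) (x : P) : ℕ := (e x : ℕ) + 1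

/-- `a_k(P)`: the number of labelings which are sorted after `k` promotions, that is, the labels
then form a linear extension. -/
noncomputable def aa (P : Type) [PartialOrder P] [Fintype P] (k : ℕ) : ℕ :=
  Nat.card {e : P ≃ Fin (Fintype.card P) // StrictMono (prom^[k] (lab e))}

/-- The sequence `a_0(P), ..., a_(n-1)(P)` is log-concave. -/
def LogConc (P : Type) [PartialOrder P] [Fintype P] : Prop :=
  ∀ i : ℕ, 1 ≤ i → i + 2 ≤ Fintype.card P → aa P (i - 1) * aa P (i + 1) ≤ aa P i ^ 2

end Pool.Agent.Helper36.EP
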