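import Pool.Agent.Helper36.EP.Cubic2

/-!
# Liggett's theorem: the binomial convolution of two log-concave sequences is log-concave
-/

set_option autoImplicit false

open Matrix Finset

namespace Pool.Agent.Helper36.EP

/-- arrays with the Lorentzian property -/
structure Arr (w : ℕ → ℕ → ℝ) : Prop where
  nn : ∀ i j, 0 ≤ w i j
  dn : ∀ i j, w i j = 0 → w (i + 1) j = 0 ∧ w i (j + 1) = 0
  lc : ∀ i j (x z : ℝ), w i j * (w (i + 2) j * x ^ 2 + 2 * w (i + 1) (j + 1) * (x * z) +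
    w i (j + 2) * z ^ 2) ≤ (w (i + 1) j * x + w i (j + 1) * z) ^ 2

def c0 : Fin 3 → ℕ := ![1, 0, 0]
def c1 : Fin 3 → ℕ := ![0, 1, 0]

/-- the Hessian at a place of the array -/
def Hs (w : ℕ → ℕ → ℝ) (i j : ℕ) : Matrix (Fin 3) (Fin 3) ℝ :=
  fun a b => w (i + (c0 a + c0 b)) (j + (c1 a + c1 b))

theorem bf_Hs_e2 (w : ℕ → ℕ → ℝ) (i j : ℕ) : bf (Hs w i j) e2 e2 = w i j := by
  rw [bf_e2]
  rfl

theorem bf_Hs_u_e2 (w : ℕ → ℕ → ℝ) (i j : ℕ) (u : Fin 3 → ℝ) :
    bf (Hs w i j) u e2 = w (i + 1) j * u 0 + w i (j + 1) * u 1 + w i j * u 2 := by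
  rw [bf_u_e2, Fin.sum_univ_three]
  change u 0 * w (i + 1) j + u 1 * w i (j + 1) + u 2 * w i j = _
  ring

theorem bf_Hs (w : ℕ → ℕ → ℝ) (i j : ℕ) (u : Fin 3 → ℝ) :
    bf (Hs w i j) u u = w (i + 2) j * u 0 ^ 2 + 2 * w (i + 1) (j + 1) * (u 0 * u 1) +
      w i (j + 2) * u 1 ^ 2 + 2 * u 2 * (w (i + 1) j * u 0 + w i (j + 1) * u 1) +
      w i j * u 2 ^ 2 := by
  unfold bf
  simp only [mulVec, dotProduct, Fin.sum_univ_three]
  change u 0 * (w (i + 2) j * u 0 + w (i + 1) (j + 1) * u 1 + w (i + 1) j * u 2) +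
    u 1 * (w (i + 1) (j + 1) * u 0 + w i (j + 2) * u 1 + w i (j + 1) * u 2) +
    u 2 * (w (i + 1) j * u 0 + w i (j + 1) * u 1 + w i j * u 2) = _
  ring

theorem Arr.rcs {w : ℕ → ℕ → ℝ} (h : Arr w) (i j : ℕ) (u : Fin 3 → ℝ) :
    bf (Hs w i j) e2 e2 * bf (Hs w i j) u u ≤ bf (Hs w i j) u e2 ^ 2 := by
  rw [bf_Hs_e2, bf_Hs_u_e2, bf_Hs]
  have h1 := h.lc i j (u 0) (u 1)
  nlinarith [h1]

theorem Arr.step {w : ℕ → ℕ → ℝ} (h : Arr w) : Arr (fun i j => w (i + 1) j + w i (j + 1)) := by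
  refine ⟨fun i j => add_nonneg (h.nn _ _) (h.nn _ _), ?_, ?_⟩
  · intro i j hij
    have h1 : w (i + 1) j = 0 := by linarith [h.nn (i + 1) j, h.nn i (j + 1)]
    have h2 : w i (j + 1) = 0 := by linarith [h.nn (i + 1) j, h.nn i (j + 1)]
    exact ⟨by rw [(h.dn _ _ h1).1, (h.dn _ _ h1).2, add_zero],
      by rw [(h.dn _ _ h2).1, (h.dn _ _ h2).2, add_zero]⟩
  · intro i j x z
    change (w (i + 1) j + w i (j + 1)) * ((w (i + 3) j + w (i + 2) (j + 1)) * x ^ 2 +
      2 * (w (i + 2) (j + 1) + w (i + 1) (j + 2)) * (x * z) +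
      (w (i + 1) (j + 2) + w i (j + 3)) * z ^ 2) ≤
      ((w (i + 2) j + w (i + 1) (j + 1)) * x + (w (i + 1) (j + 1) + w i (j + 2)) * z) ^ 2
    by_cases h1 : w (i + 1) j = 0
    · have a1 := h.dn _ _ h1
      have a2 := h.dn _ _ a1.1
      have a3 := h.dn _ _ a1.2
      have a4 : w (i + 3) j = 0 := a2.1
      have a5 : w (i + 2) (j + 1) = 0 := a2.2
      have a6 : w (i + 1) (j + 2) = 0 := a3.2
      have a7 : w (i + 2) j = 0 := a1.1
      rw [h1, a4, a5, a6, a7, a1.2]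
      have h3 := h.lc i (j + 1) 0 z
      have h4 : w i (j + 1) * (w i (j + 3) * z ^ 2) ≤ (w i (j + 2) * z) ^ 2 := by
        have h5 : w i (j + 1) * (w (i + 2) (j + 1) * 0 ^ 2 + 2 * w (i + 1) (j + 1 + 1) * (0 * z) +
          w i (j + 1 + 2) * z ^ 2) ≤ (w (i + 1) (j + 1) * 0 + w i (j + 1 + 1) * z) ^ 2 := h3
        have h6 : w i (j + 1 + 2) = w i (j + 3) := rfl
        have h7 : w i (j + 1 + 1) = w i (j + 2) := rfl
        rw [h6, h7] at h5
        nlinarith [h5]
      nlinarith [h4]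
    by_cases h2 : w i (j + 1) = 0
    · have a1 := h.dn _ _ h2
      have a2 := h.dn _ _ a1.1
      have a3 := h.dn _ _ a1.2
      have a4 : w i (j + 3) = 0 := a3.2
      have a5 : w (i + 2) (j + 1) = 0 := a2.1
      have a6 : w (i + 1) (j + 2) = 0 := a2.2
      have a7 : w i (j + 2) = 0 := a1.2
      rw [h2, a4, a5, a6, a7, a1.1]
      have h3 := h.lc (i + 1) j x 0
      have h6 : w (i + 1 + 2) j = w (i + 3) j := rfl
      have h7 : w (i + 1 + 1) j = w (i + 2) j := rfl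
      rw [h6, h7] at h3
      nlinarith [h3]
    have p1 : 0 < w (i + 1) j := lt_of_le_of_ne (h.nn _ _) (Ne.symm h1)
    have p2 : 0 < w i (j + 1) := lt_of_le_of_ne (h.nn _ _) (Ne.symm h2)
    have p0 : 0 < w i j := lt_of_le_of_ne (h.nn _ _) (fun h3 => h1 (h.dn i j h3.symm).1)
    have h3 := cubic_limit (T := fun k => Hs w (i + c0 k) (j + c1 k)) (by
      intro a b c
      simp only [Hs]
      congr 1 <;> omega) (by
      intro k
      refine Matrix.IsSymm.ext fun a b => ?_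
      simp only [Hs]
      congr 1 <;> omega) (fun _ _ _ => h.nn _ _) (by
      intro k
      fin_cases k
      · exact p1
      · exact p2
      · exact p0) (fun k u => h.rcs _ _ u) ![x, z, 0]
    have e1 : Hs w (i + c0 0) (j + c1 0) = Hs w (i + 1) j := rfl
    have e3 : Hs w (i + c0 1) (j + c1 1) = Hs w i (j + 1) := rfl
    simp only [e1, e3] at h3
    rw [bf_Hs_e2, bf_Hs_e2, bf_Hs_u_e2, bf_Hs_u_e2, bf_Hs, bf_Hs] at h3
    have g0 : (![x, z, 0] : Fin 3 → ℝ) 0 = x := rfl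
    have g1 : (![x, z, 0] : Fin 3 → ℝ) 1 = z := rfl
    have g2 : (![x, z, 0] : Fin 3 → ℝ) 2 = 0 := rfl
    rw [g0, g1, g2] at h3
    have k1 : w (i + 1 + 2) j = w (i + 3) j := rfl
    have k2 : w (i + 1 + 1) (j + 1) = w (i + 2) (j + 1) := rfl
    have k3 : w (i + 1 + 1) j = w (i + 2) j := rfl
    have k4 : w (i + 1) (j + 1 + 1) = w (i + 1) (j + 2) := rfl
    have k5 : w i (j + 1 + 2) = w i (j + 3) := rfl
    have k6 : w i (j + 1 + 1) = w i (j + 2) := rfl
    rw [k1, k2, k3, k4, k5, k6] at h3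
    nlinarith [h3]

/-- the initial array -/
noncomputable def om (a b : ℕ → ℝ) (p q i j : ℕ) : ℝ :=
  if i ≤ p ∧ j ≤ q then a i * b j * ((p - i + (q - j)).choose (p - i) : ℝ) else 0

theorem om_of_le (a b : ℕ → ℝ) (i j p q : ℕ) :
    om a b (i + p) (j + q) i j = a i * b j * ((p + q).choose p : ℝ) := by
  unfold om
  rw [if_pos ⟨Nat.le_add_right _ _, Nat.le_add_right _ _⟩, Nat.add_sub_cancel_left,
    Nat.add_sub_cancel_left]

theorem om_of_not {a b : ℕ → ℝ} {p q i j : ℕ} (h : ¬ (i ≤ p ∧ j ≤ q)) : om a b p q i j = 0 := by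
  unfold om
  rw [if_neg h]

theorem choose_id1 (p q : ℕ) : ((p : ℝ) + 1 + q) * ((p + q).choose p : ℝ) =
    (p + 1 : ℝ) * ((p + 1 + q).choose (p + 1) : ℝ) := by
  have h := Nat.add_one_mul_choose_eq (p + q) p
  have h1 : p + q + 1 = p + 1 + q := by ring
  rw [h1] at h
  have h2 : (((p + 1 + q) * (p + q).choose p : ℕ) : ℝ) =
    (((p + 1 + q).choose (p + 1) * (p + 1) : ℕ) : ℝ) := by rw [h]
  push_cast at h2 ⊢
  linarith

theorem choose_id2 (p q : ℕ) : ((p : ℝ) + q + 1) * ((p + q).choose p : ℝ) =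
    (q + 1 : ℝ) * ((p + (q + 1)).choose p : ℝ) := by
  have h := choose_id1 q p
  have h1 : (q + p).choose q = (p + q).choose p := by
    rw [add_comm q p, Nat.choose_symm_add]
  have h2 : (q + 1 + p).choose (q + 1) = (p + (q + 1)).choose p := by
    rw [add_comm (q + 1) p, Nat.choose_symm_add]
  rw [h1, h2] at h
  linarith

theorem om_10 (a b : ℕ → ℝ) (i j p q : ℕ) : ((p : ℝ) + q) * om a b (i + p) (j + q) (i + 1) j =
    p * (a (i + 1) * b j * ((p + q).choose p : ℝ)) := by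
  rcases p with _ | s
  · rw [om_of_not (by omega)]
    simp
  · have h1 : i + (s + 1) = i + 1 + s := by ring
    rw [h1, om_of_le]
    have h2 := choose_id1 s q
    push_cast
    linear_combination (a (i + 1) * b j) * h2

theorem om_01 (a b : ℕ → ℝ) (i j p q : ℕ) : ((p : ℝ) + q) * om a b (i + p) (j + q) i (j + 1) =
    q * (a i * b (j + 1) * ((p + q).choose p : ℝ)) := by
  rcases q with _ | s
  · rw [om_of_not (by omega)]
    simp
  · have h1 : j + (s + 1) = j + 1 + s := by ring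
    rw [h1, om_of_le]
    have h2 := choose_id2 p s
    push_cast
    linear_combination (a i * b (j + 1)) * h2

theorem om_20 (a b : ℕ → ℝ) (i j p q : ℕ) :
    ((p : ℝ) + q) * (p + q - 1) * om a b (i + p) (j + q) (i + 2) j =
    p * (p - 1) * (a (i + 2) * b j * ((p + q).choose p : ℝ)) := by
  rcases p with _ | _ | s
  · rw [om_of_not (by omega)]
    simp
  · rw [om_of_not (by omega)]
    simp
  · have h1 : i + (s + 1 + 1) = i + 2 + s := by ring
    rw [h1, om_of_le]
    have h2 := choose_id1 s q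
    have h3 := choose_id1 (s + 1) q
    push_cast at h3 ⊢
    linear_combination (a (i + 2) * b j) * (s + 1 + 1 + q) * h2 + (a (i + 2) * b j) * (s + 1) * h3

theorem om_02 (a b : ℕ → ℝ) (i j p q : ℕ) :
    ((p : ℝ) + q) * (p + q - 1) * om a b (i + p) (j + q) i (j + 2) =
    q * (q - 1) * (a i * b (j + 2) * ((p + q).choose p : ℝ)) := by
  rcases q with _ | _ | s
  · rw [om_of_not (by omega)]
    simp
  · rw [om_of_not (by omega)]
    simp
  · have h1 : j + (s + 1 + 1) = j + 2 + s := by ring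
    rw [h1, om_of_le]
    have h2 := choose_id2 p s
    have h3 := choose_id2 p (s + 1)
    push_cast at h3 ⊢
    linear_combination (a i * b (j + 2)) * (p + (s + 1) + 1) * h2 + (a i * b (j + 2)) * (s + 1) * h3

theorem om_11 (a b : ℕ → ℝ) (i j p q : ℕ) :
    ((p : ℝ) + q) * (p + q - 1) * om a b (i + p) (j + q) (i + 1) (j + 1) =
    p * q * (a (i + 1) * b (j + 1) * ((p + q).choose p : ℝ)) := by
  rcases p with _ | s
  · rw [om_of_not (by omega)]
    simp
  rcases q with _ | t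
  · rw [om_of_not (by omega)]
    simp
  · have h1 : i + (s + 1) = i + 1 + s := by ring
    have h1' : j + (t + 1) = j + 1 + t := by ring
    rw [h1, h1', om_of_le]
    have h2 := choose_id1 s t
    have h3 := choose_id2 (s + 1) t
    push_cast at h3 ⊢
    linear_combination (a (i + 1) * b (j + 1)) * (s + 1 + (t + 1)) * h2 +
      (a (i + 1) * b (j + 1)) * (s + 1) * h3

theorem om_arr {a b : ℕ → ℝ} {p q : ℕ} (ha : ∀ i, i ≤ p → 0 < a i) (hb : ∀ j, j ≤ q → 0 < b j)
    (la : ∀ i, i + 2 ≤ p → a i * a (i + 2) ≤ a (i + 1) ^ 2)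
    (lb : ∀ j, j + 2 ≤ q → b j * b (j + 2) ≤ b (j + 1) ^ 2) : Arr (om a b p q) := by
  have hpos : ∀ i j, i ≤ p → j ≤ q → 0 < om a b p q i j := by
    intro i j hi hj
    unfold om
    rw [if_pos ⟨hi, hj⟩]
    refine mul_pos (mul_pos (ha i hi) (hb j hj)) ?_
    exact_mod_cast Nat.choose_pos (Nat.le_add_right _ _)
  refine ⟨?_, ?_, ?_⟩
  · intro i j
    by_cases h : i ≤ p ∧ j ≤ q
    · exact (hpos i j h.1 h.2).le
    · exact (om_of_not h).ge
  · intro i j hij
    have h : ¬ (i ≤ p ∧ j ≤ q) := fun h => (hpos i j h.1 h.2).ne' hij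
    exact ⟨om_of_not (by omega), om_of_not (by omega)⟩
  · intro i j x z
    by_cases h : i ≤ p ∧ j ≤ q
    swap
    · rw [om_of_not h, zero_mul]
      exact sq_nonneg _
    obtain ⟨s, rfl⟩ := Nat.exists_eq_add_of_le h.1
    obtain ⟨t, rfl⟩ := Nat.exists_eq_add_of_le h.2
    by_cases hm : s + t < 2
    · have z1 : om a b (i + s) (j + t) (i + 2) j = 0 := om_of_not (by omega)
      have z2 : om a b (i + s) (j + t) (i + 1) (j + 1) = 0 := om_of_not (by omega)
      have z3 : om a b (i + s) (j + t) i (j + 2) = 0 := om_of_not (by omega)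
      rw [z1, z2, z3]
      nlinarith [sq_nonneg (om a b (i + s) (j + t) (i + 1) j * x +
        om a b (i + s) (j + t) i (j + 1) * z)]
    push Not at hm
    have hai := ha i h.1
    have hbj := hb j h.2
    set c : ℝ := ((s + t).choose s : ℝ) with hc
    set S : ℝ := (s : ℝ) with hS
    set U : ℝ := (t : ℝ) with hU
    have hS0 : 0 ≤ S := Nat.cast_nonneg _
    have hU0 : 0 ≤ U := Nat.cast_nonneg _
    have hm2 : 2 ≤ S + U := by
      rw [hS, hU]
      exact_mod_cast hm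
    have f00 := om_of_le a b i j s t
    have f10 := om_10 a b i j s t
    have f01 := om_01 a b i j s t
    have f20 := om_20 a b i j s t
    have f02 := om_02 a b i j s t
    have f11 := om_11 a b i j s t
    rw [← hc] at f00 f10 f01 f20 f02 f11
    rw [← hS, ← hU] at f10 f01 f20 f02 f11
    rw [f00]
    set o10 := om a b (i + s) (j + t) (i + 1) j
    set o01 := om a b (i + s) (j + t) i (j + 1)
    set o20 := om a b (i + s) (j + t) (i + 2) j
    set o02 := om a b (i + s) (j + t) i (j + 2)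
    set o11 := om a b (i + s) (j + t) (i + 1) (j + 1)
    -- log-concavity with the factors
    have g1 : S * (S - 1) * (a i * a (i + 2)) ≤ S * (S - 1) * a (i + 1) ^ 2 := by
      rcases s with _ | _ | s
      · simp [hS]
      · simp [hS]
      · refine mul_le_mul_of_nonneg_left (la i (by omega)) ?_
        have : (1 : ℝ) ≤ S := by
          rw [hS]
          push_cast
          linarith [Nat.cast_nonneg (α := ℝ) s]
        nlinarith
    have g2 : U * (U - 1) * (b j * b (j + 2)) ≤ U * (U - 1) * b (j + 1) ^ 2 := by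
      rcases t with _ | _ | t
      · simp [hU]
      · simp [hU]
      · refine mul_le_mul_of_nonneg_left (lb j (by omega)) ?_
        have : (1 : ℝ) ≤ U := by
          rw [hU]
          push_cast
          linarith [Nat.cast_nonneg (α := ℝ) t]
        nlinarith
    have hmm : 0 < (S + U) ^ 2 * (S + U - 1) := by
      apply mul_pos
      · positivity
      · linarith
    refine le_of_mul_le_mul_left ?_ hmm
    have el : (S + U) ^ 2 * (S + U - 1) * (a i * b j * c * (o20 * x ^ 2 + 2 * o11 * (x * z) +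
        o02 * z ^ 2)) = (S + U) * c ^ 2 * ((S * (S - 1) * (a i * a (i + 2))) * (b j * x) ^ 2 +
        2 * S * U * (a (i + 1) * b j * x) * (a i * b (j + 1) * z) +
        (U * (U - 1) * (b j * b (j + 2))) * (a i * z) ^ 2) := by
      linear_combination ((S + U) * (a i * b j * c) * x ^ 2) * f20 +
        ((S + U) * (a i * b j * c) * (2 * x * z)) * f11 + ((S + U) * (a i * b j * c) * z ^ 2) * f02
    have er : (S + U) ^ 2 * (S + U - 1) * (o10 * x + o01 * z) ^ 2 =
        (S + U - 1) * c ^ 2 * (S * (a (i + 1) * b j * x) + U * (a i * b (j + 1) * z)) ^ 2 := by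
      have e1 : (S + U) * (o10 * x + o01 * z) =
          c * (S * (a (i + 1) * b j * x) + U * (a i * b (j + 1) * z)) := by
        linear_combination x * f10 + z * f01
      have e2 : (S + U) ^ 2 * (S + U - 1) * (o10 * x + o01 * z) ^ 2 =
        (S + U - 1) * ((S + U) * (o10 * x + o01 * z)) ^ 2 := by ring
      rw [e2, e1]
      ring
    rw [el, er]
    have k1 : (S * (S - 1) * (a i * a (i + 2))) * (b j * x) ^ 2 ≤
        (S * (S - 1) * a (i + 1) ^ 2) * (b j * x) ^ 2 :=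
      mul_le_mul_of_nonneg_right g1 (sq_nonneg _)
    have k2 : (U * (U - 1) * (b j * b (j + 2))) * (a i * z) ^ 2 ≤
        (U * (U - 1) * b (j + 1) ^ 2) * (a i * z) ^ 2 :=
      mul_le_mul_of_nonneg_right g2 (sq_nonneg _)
    have k3 : 0 ≤ c ^ 2 * (S * U * (a (i + 1) * b j * x - a i * b (j + 1) * z) ^ 2) := by
      positivity
    have k4 : 0 ≤ (S + U) * c ^ 2 := by positivity
    calc (S + U) * c ^ 2 * ((S * (S - 1) * (a i * a (i + 2))) * (b j * x) ^ 2 +
        2 * S * U * (a (i + 1) * b j * x) * (a i * b (j + 1) * z) +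
        (U * (U - 1) * (b j * b (j + 2))) * (a i * z) ^ 2)
        ≤ (S + U) * c ^ 2 * ((S * (S - 1) * a (i + 1) ^ 2) * (b j * x) ^ 2 +
        2 * S * U * (a (i + 1) * b j * x) * (a i * b (j + 1) * z) +
        (U * (U - 1) * b (j + 1) ^ 2) * (a i * z) ^ 2) := by
          refine mul_le_mul_of_nonneg_left ?_ k4
          linarith
      _ = (S + U - 1) * c ^ 2 * (S * (a (i + 1) * b j * x) + U * (a i * b (j + 1) * z)) ^ 2 -
          c ^ 2 * (S * U * (a (i + 1) * b j * x - a i * b (j + 1) * z) ^ 2) := by ring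
      _ ≤ _ := by linarith

/-- the iterated arrays -/
noncomputable def WW (w : ℕ → ℕ → ℝ) : ℕ → ℕ → ℕ → ℝ
  | 0 => w
  | k + 1 => fun i j => WW w k (i + 1) j + WW w k i (j + 1)

theorem WW_arr {w : ℕ → ℕ → ℝ} (h : Arr w) (k : ℕ) : Arr (WW w k) := by
  induction k with
  | zero => exact h
  | succ k ih => exact ih.step

theorem WW_eq (w : ℕ → ℕ → ℝ) (k i j : ℕ) :
    WW w k i j = ∑ l ∈ antidiagonal k, (k.choose l.1 : ℝ) * w (i + l.1) (j + l.2) := by
  induction k generalizing i j with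
  | zero => simp [WW]
  | succ k ih =>
    rw [sum_antidiagonal_choose_succ_mul (fun l m => w (i + l) (j + m))]
    change WW w k (i + 1) j + WW w k i (j + 1) = _
    rw [ih, ih, add_comm]
    congr 1
    · refine sum_congr rfl fun l _ => ?_
      rw [add_right_comm]
      rfl
    · refine sum_congr rfl fun l hl => ?_
      have h1 : l.1 + l.2 = k := mem_antidiagonal.1 hl
      rw [← h1, Nat.choose_symm_add, add_right_comm i 1]
      rfl

/-- Liggett's theorem -/
theorem liggett {a b : ℕ → ℝ} {p q : ℕ} (ha : ∀ i, i ≤ p → 0 < a i) (hb : ∀ j, j ≤ q → 0 < b j)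
    (la : ∀ i, i + 2 ≤ p → a i * a (i + 2) ≤ a (i + 1) ^ 2)
    (lb : ∀ j, j + 2 ≤ q → b j * b (j + 2) ≤ b (j + 1) ^ 2) (k : ℕ) :
    (∑ l ∈ antidiagonal k, (k.choose l.1 : ℝ) * om a b p q l.1 l.2) *
      (∑ l ∈ antidiagonal (k + 2), ((k + 2).choose l.1 : ℝ) * om a b p q l.1 l.2) ≤
    (∑ l ∈ antidiagonal (k + 1), ((k + 1).choose l.1 : ℝ) * om a b p q l.1 l.2) ^ 2 := by
  have h1 := (WW_arr (om_arr ha hb la lb) k).lc 0 0 1 1
  have e : ∀ k, ∑ l ∈ antidiagonal k, (k.choose l.1 : ℝ) * om a b p q l.1 l.2 =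
      WW (om a b p q) k 0 0 := by
    intro k
    rw [WW_eq]
    simp
  rw [e, e, e]
  change WW (om a b p q) k 0 0 * (WW (om a b p q) k 2 0 + WW (om a b p q) k 1 1 +
    (WW (om a b p q) k 1 1 + WW (om a b p q) k 0 2)) ≤
    (WW (om a b p q) k 1 0 + WW (om a b p q) k 0 1) ^ 2
  have h2 : WW (om a b p q) k 0 0 * (WW (om a b p q) k 2 0 * 1 ^ 2 +
    2 * WW (om a b p q) k 1 1 * (1 * 1) + WW (om a b p q) k 0 2 * 1 ^ 2) ≤
    (WW (om a b p q) k 1 0 * 1 + WW (om a b p q) k 0 1 * 1) ^ 2 := h1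
  nlinarith [h2]

end Pool.Agent.Helper36.EP
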