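import Pool.Agent.Helper36.EP.Class

/-!
# Ordinal sums: the upper summand may be replaced by an antichain
-/

set_option autoImplicit false

namespace Pool.Agent.Helper36.EP

open Relation

section Step

variable {Q R : Type} [PartialOrder Q] [PartialOrder R]

/-- successors of an element of the lower part inside the lower part -/
theorem isSucc_lo {L : Q ⊕ₗ R → ℕ} {b : R} (hb : ∀ y, L (hi b) ≤ L (hi y)) (y z : Q) :
    IsSucc L (lo y) (lo z) ↔ IsSucc (L ∘ lo) y z ∧ L (lo z) ≤ L (hi b) := by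
  constructor
  · rintro ⟨h1, h2⟩
    exact ⟨⟨Sum.Lex.inl_lt_inl_iff.1 h1, fun w hw => h2 _ (Sum.Lex.inl_lt_inl_iff.2 hw)⟩,
      h2 _ (lo_lt_hi _ _)⟩
  · rintro ⟨⟨h1, h2⟩, h3⟩
    refine ⟨Sum.Lex.inl_lt_inl_iff.2 h1, fun w hw => ?_⟩
    rcases lo_or_hi w with ⟨t, rfl⟩ | ⟨x, rfl⟩
    · exact h2 t (Sum.Lex.inl_lt_inl_iff.1 hw)
    · exact h3.trans (hb x)

theorem isSucc_lo_hi {L : Q ⊕ₗ R → ℕ} {b : R} (hb : ∀ y, L (hi b) ≤ L (hi y)) (y : Q) :
    IsSucc L (lo y) (hi b) ↔ ∀ z, y < z → L (hi b) ≤ L (lo z) := by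
  constructor
  · rintro ⟨_, h2⟩ z hz
    exact h2 _ (Sum.Lex.inl_lt_inl_iff.2 hz)
  · intro h
    refine ⟨lo_lt_hi _ _, fun w hw => ?_⟩
    rcases lo_or_hi w with ⟨t, rfl⟩ | ⟨x, rfl⟩
    · exact h t (Sum.Lex.inl_lt_inl_iff.1 hw)
    · exact hb x

/-- the path leaves the lower part at the smallest label of the upper part -/
theorem isSucc_hi_eq {L : Q ⊕ₗ R → ℕ} (hL : Function.Injective L) {b x : R}
    (hb : ∀ y, L (hi b) ≤ L (hi y)) {y : Q} (h : IsSucc L (lo y) (hi x)) : x = b :=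
  hi_inj (hL (le_antisymm (h.2 _ (lo_lt_hi _ _)) (hb x)))

variable [Fintype Q] [Fintype R]

theorem exists_last {L : Q ⊕ₗ R → ℕ} (hL : Function.Injective L) {b : R}
    (hb : ∀ y, L (hi b) ≤ L (hi y)) {m : Q} (hm : ∀ z, L (lo m) ≤ L z) :
    ∃ y : Q, OnPath L (lo y) ∧ IsSucc L (lo y) (hi b) := by
  classical
  obtain ⟨y, hy, hmax⟩ := (Set.toFinite {y : Q | OnPath L (lo y)}).exists_maximal
    ⟨m, ⟨lo m, hm, ReflTransGen.refl⟩⟩
  refine ⟨y, hy, ?_⟩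
  obtain ⟨z, hz⟩ := exists_succ L (lo_lt_hi y b)
  rcases lo_or_hi z with ⟨t, rfl⟩ | ⟨x, rfl⟩
  · have h1 : y < t := Sum.Lex.inl_lt_inl_iff.1 hz.1
    exact absurd (hmax (OnPath.next hy hz) h1.le) h1.not_ge
  · rwa [isSucc_hi_eq hL hb hz] at hz

theorem onPath_hi {L : Q ⊕ₗ R → ℕ} (hL : Function.Injective L) {b : R}
    (hb : ∀ y, L (hi b) ≤ L (hi y)) {m : Q} (hm : ∀ z, L (lo m) ≤ L z) (x : R) :
    OnPath L (hi x) ↔ OnPath (L ∘ hi) x := by
  constructor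
  · rintro ⟨m', hm', h⟩
    have h1 : m' = lo m := hL (le_antisymm (hm' _) (hm _))
    rw [h1] at h
    have key : ∀ z, ReflTransGen (IsSucc L) (lo m) z → ∀ x, z = hi x →
        ReflTransGen (IsSucc (L ∘ hi)) b x := by
      intro z hz
      induction hz with
      | refl =>
        intro x hx
        exact absurd hx (lo_ne_hi _ _)
      | tail _ h2 ih =>
        intro x hx
        rename_i u w _
        subst hx
        rcases lo_or_hi u with ⟨t, rfl⟩ | ⟨y, rfl⟩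
        · rw [isSucc_hi_eq hL hb h2]
        · exact (ih y rfl).tail ((upHi.isSucc L _ _).1 h2)
    exact ⟨b, hb, key _ h x rfl⟩
  · rintro ⟨b', hb', h⟩
    have h1 : b' = b := hi_inj (hL (le_antisymm (hb' b) (hb b')))
    rw [h1] at h
    obtain ⟨y, hy, hyb⟩ := exists_last hL hb hm
    obtain ⟨m', hm', hmy⟩ := hy
    exact ⟨m', hm', (hmy.tail hyb).trans ((upHi.rtg L _ _).2 h)⟩

omit [PartialOrder Q] [PartialOrder R] [Fintype Q] in
/-- the smallest label of the whole and of the upper part -/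
theorem exists_min_hi [Nonempty R] (L : Q ⊕ₗ R → ℕ) : ∃ b : R, ∀ y, L (hi b) ≤ L (hi y) := by
  obtain ⟨b, -, hb⟩ := Finset.exists_min_image Finset.univ (fun y : R => L (hi y))
    ⟨Classical.arbitrary R, Finset.mem_univ _⟩
  exact ⟨b, fun y => hb y (Finset.mem_univ _)⟩

theorem stp_hi [Nonempty R] {L : Q ⊕ₗ R → ℕ} (hL : Function.Injective L) (N : ℕ) :
    stp L N ∘ hi = stp (L ∘ hi) N := by
  obtain ⟨b, hb⟩ := exists_min_hi L
  obtain ⟨m, -, hm⟩ := Finset.exists_min_image Finset.univ L ⟨hi b, Finset.mem_univ _⟩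
  have hm' : ∀ z, L m ≤ L z := fun z => hm z (Finset.mem_univ _)
  rcases lo_or_hi m with ⟨t, rfl⟩ | ⟨x, rfl⟩
  · exact upHi.stp hL (fun x => onPath_hi hL hb hm' x) N
  · exact upHi.stp hL (fun y => upHi.onPath hL hm' y) N

/-- The new labels of the lower part depend only on the old ones and on the smallest label of the
upper part. -/
theorem nxt_lo_cases {L : Q ⊕ₗ R → ℕ} (hL : Function.Injective L) {b : R}
    (hb : ∀ y, L (hi b) ≤ L (hi y)) (y : Q) :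
    (¬ OnPath L (lo y) ∧ nxt L (lo y) = some (lo y)) ∨
    (∃ z, OnPath L (lo y) ∧ IsSucc L (lo y) (lo z) ∧ nxt L (lo y) = some (lo z)) ∨
      (OnPath L (lo y) ∧ IsSucc L (lo y) (hi b) ∧ nxt L (lo y) = some (hi b)) := by
  rcases nxt_cases (L := L) (lo y) with ⟨h1, h2⟩ | ⟨z, h1, h3, h2⟩ | ⟨h1, h3, h2⟩
  · exact Or.inl ⟨h1, h2⟩
  · rcases lo_or_hi z with ⟨t, rfl⟩ | ⟨x, rfl⟩
    · exact Or.inr (Or.inl ⟨t, h1, h3, h2⟩)
    · have h4 := isSucc_hi_eq hL hb h3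
      subst h4
      exact Or.inr (Or.inr ⟨h1, h3, h2⟩)
  · exact absurd (exists_succ L (lo_lt_hi y b)) h3

end Step

section Compare

variable {Q R T : Type} [PartialOrder Q] [PartialOrder R] [PartialOrder T]
  [Fintype Q] [Fintype R] [Fintype T]

/-- the same lower labels and the same smallest upper label -/
structure Cmp (L : Q ⊕ₗ R → ℕ) (M : Q ⊕ₗ T → ℕ) : Prop where
  lo_eq : ∀ y, L (lo y) = M (lo y)
  range_eq : (Set.range fun x : R => L (hi x)) = Set.range fun x : T => M (hi x)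

omit [PartialOrder Q] [PartialOrder R] [PartialOrder T] [Fintype Q] [Fintype R] [Fintype T] in
theorem Cmp.symm {L : Q ⊕ₗ R → ℕ} {M : Q ⊕ₗ T → ℕ} (h : Cmp L M) : Cmp M L :=
  ⟨fun y => (h.lo_eq y).symm, h.range_eq.symm⟩

omit [PartialOrder Q] [PartialOrder R] [PartialOrder T] [Fintype Q] [Fintype R] [Fintype T] in
theorem Cmp.min_eq {L : Q ⊕ₗ R → ℕ} {M : Q ⊕ₗ T → ℕ} (h : Cmp L M) {b : R} {c : T}
    (hb : ∀ y, L (hi b) ≤ L (hi y)) (hc : ∀ y, M (hi c) ≤ M (hi y)) : L (hi b) = M (hi c) := by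
  have h1 : L (hi b) ∈ Set.range fun x : T => M (hi x) := by
    rw [← h.range_eq]
    exact ⟨b, rfl⟩
  have h2 : M (hi c) ∈ Set.range fun x : R => L (hi x) := by
    rw [h.range_eq]
    exact ⟨c, rfl⟩
  obtain ⟨x, hx⟩ := h1
  obtain ⟨y, hy⟩ := h2
  refine le_antisymm ?_ ?_
  · rw [← hy]
    exact hb y
  · rw [← hx]
    exact hc x

theorem Cmp.succ_lo {L : Q ⊕ₗ R → ℕ} {M : Q ⊕ₗ T → ℕ} (h : Cmp L M) {b : R} {c : T}
    (hb : ∀ y, L (hi b) ≤ L (hi y)) (hc : ∀ y, M (hi c) ≤ M (hi y)) (y z : Q) :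
    IsSucc L (lo y) (lo z) ↔ IsSucc M (lo y) (lo z) := by
  rw [isSucc_lo hb, isSucc_lo hc, h.min_eq hb hc, h.lo_eq z]
  have h1 : L ∘ lo = M ∘ lo := funext h.lo_eq
  rw [h1]

theorem Cmp.succ_hi {L : Q ⊕ₗ R → ℕ} {M : Q ⊕ₗ T → ℕ} (h : Cmp L M) {b : R} {c : T}
    (hb : ∀ y, L (hi b) ≤ L (hi y)) (hc : ∀ y, M (hi c) ≤ M (hi y)) (y : Q) :
    IsSucc L (lo y) (hi b) ↔ IsSucc M (lo y) (hi c) := by
  rw [isSucc_lo_hi hb, isSucc_lo_hi hc, h.min_eq hb hc]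
  simp only [h.lo_eq]

/-- the paths agree in the lower part -/
theorem Cmp.onPath_aux {L : Q ⊕ₗ R → ℕ} {M : Q ⊕ₗ T → ℕ} (h : Cmp L M) {b : R} {c : T} (hb : ∀ y, L (hi b) ≤ L (hi y))
    (hc : ∀ y, M (hi c) ≤ M (hi y)) (y : Q) (hy : OnPath L (lo y)) : OnPath M (lo y) := by
  obtain ⟨m, hm, hmy⟩ := hy
  rcases lo_or_hi m with ⟨t, rfl⟩ | ⟨x, rfl⟩
  · have hmin : ∀ z, M (lo t) ≤ M z := by
      intro z
      rcases lo_or_hi z with ⟨s, rfl⟩ | ⟨x, rfl⟩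
      · rw [← h.lo_eq, ← h.lo_eq]
        exact hm _
      · rw [← h.lo_eq]
        exact ((hm (hi b)).trans (h.min_eq hb hc).le).trans (hc x)
    have key : ∀ z, ReflTransGen (IsSucc L) (lo t) z → ∀ y, z = lo y →
        ReflTransGen (IsSucc M) (lo t) (lo y) := by
      intro z hz
      induction hz with
      | refl =>
        intro y hy
        rw [lo_inj hy]
      | tail _ h2 ih =>
        intro y hy
        rename_i u w _
        subst hy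
        rcases lo_or_hi u with ⟨s, rfl⟩ | ⟨x, rfl⟩
        · exact (ih s rfl).tail ((h.succ_lo hb hc _ _).1 h2)
        · exact absurd h2.1 Sum.Lex.not_inr_lt_inl
    exact ⟨lo t, hmin, key _ hmy y rfl⟩
  · exact absurd (rtg_le hmy) Sum.Lex.not_inr_le_inl

theorem Cmp.stp [Nonempty R] [Nonempty T] {L : Q ⊕ₗ R → ℕ} {M : Q ⊕ₗ T → ℕ} (h : Cmp L M)
    (hL : Function.Injective L) (hM : Function.Injective M) (N : ℕ) :
    Cmp (stp L N) (stp M N) := by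
  obtain ⟨b, hb⟩ := exists_min_hi L
  obtain ⟨c, hc⟩ := exists_min_hi M
  refine ⟨fun y => ?_, ?_⟩
  · have hp : OnPath L (lo y) ↔ OnPath M (lo y) :=
      ⟨h.onPath_aux hb hc y, h.symm.onPath_aux hc hb y⟩
    rcases nxt_lo_cases hL hb y with ⟨h1, h2⟩ | ⟨z, h1, h3, h2⟩ | ⟨h1, h3, h2⟩
    · rw [stp_of_not h1, stp_of_not (fun h4 => h1 (hp.2 h4)), h.lo_eq]
    · have h4 : EP.nxt M (lo y) = some (lo z) :=
        nxt_of_succ hM (hp.1 h1) ((h.succ_lo hb hc _ _).1 h3)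
      unfold EP.stp
      rw [h2, h4]
      exact h.lo_eq z
    · have h4 : EP.nxt M (lo y) = some (hi c) :=
        nxt_of_succ hM (hp.1 h1) ((h.succ_hi hb hc _).1 h3)
      unfold EP.stp
      rw [h2, h4]
      exact h.min_eq hb hc
  · have e1 : (fun x : R => EP.stp L N (hi x)) = EP.stp (L ∘ hi) N := stp_hi hL N
    have e2 : (fun x : T => EP.stp M N (hi x)) = EP.stp (M ∘ hi) N := stp_hi hM N
    rw [e1, e2, range_stp (hL.comp hi_inj) (m := b) hb, range_stp (hM.comp hi_inj) (m := c) hc]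
    have e3 : Set.range (L ∘ (hi : R → Q ⊕ₗ R)) = Set.range (M ∘ (hi : T → Q ⊕ₗ T)) := h.range_eq
    rw [e3]
    have e4 : (L ∘ (hi : R → Q ⊕ₗ R)) b = (M ∘ (hi : T → Q ⊕ₗ T)) c := h.min_eq hb hc
    rw [e4]

omit [Fintype Q] [Fintype R] in
theorem strictMono_lex {L : Q ⊕ₗ R → ℕ} : StrictMono L ↔
    StrictMono (L ∘ lo) ∧ StrictMono (L ∘ hi) ∧ ∀ y x, L (lo y) < L (hi x) := by
  constructor
  · intro h
    exact ⟨fun x y hxy => h (Sum.Lex.inl_lt_inl_iff.2 hxy), fun x y hxy => h ((upHi.lt _ _).2 hxy),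
      fun y x => h (lo_lt_hi y x)⟩
  · rintro ⟨h1, h2, h3⟩ z w hzw
    rcases lo_or_hi z with ⟨s, rfl⟩ | ⟨x, rfl⟩ <;> rcases lo_or_hi w with ⟨t, rfl⟩ | ⟨y, rfl⟩
    · exact h1 (Sum.Lex.inl_lt_inl_iff.1 hzw)
    · exact h3 s y
    · exact absurd hzw Sum.Lex.not_inr_lt_inl
    · exact h2 ((upHi.lt _ _).1 hzw)

/-- the two runs -/
theorem Cmp.run [Nonempty R] [Nonempty T] {L : Q ⊕ₗ R → ℕ} {M : Q ⊕ₗ T → ℕ} (h : Cmp L M)
    (hL : Function.Injective L) (hM : Function.Injective M) (k : ℕ) :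
    ∃ (L' : Q ⊕ₗ R → ℕ) (M' : Q ⊕ₗ T → ℕ), Rn L k L' ∧ Rn M k M' ∧ Cmp L' M' ∧
      Rn (L ∘ hi) k (L' ∘ hi) := by
  induction k with
  | zero => exact ⟨L, M, Rn.zero _, Rn.zero _, h, Rn.zero _⟩
  | succ k ih =>
    obtain ⟨L', M', h1, h2, h3, h4⟩ := ih
    obtain ⟨N1, -, hN1⟩ := exists_fresh L' 0
    obtain ⟨N2, hN, hN2⟩ := exists_fresh M' N1
    have hN1' : ∀ x, L' x < N2 := fun x => lt_of_lt_of_le (hN1 x) hN
    refine ⟨EP.stp L' N2, EP.stp M' N2, h1.succ hN1', h2.succ hN2,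
      h3.stp (h1.inj hL) (h2.inj hM) N2, ?_⟩
    rw [stp_hi (h1.inj hL)]
    exact h4.succ fun x => hN1' _

/-- sortedness splits -/
theorem Cmp.srt [Nonempty R] [Nonempty T] (hT : ∀ s t : T, s ≤ t → s = t) {L : Q ⊕ₗ R → ℕ}
    {M : Q ⊕ₗ T → ℕ} (h : Cmp L M) (hL : Function.Injective L) (hM : Function.Injective M)
    (k : ℕ) : Srt L k ↔ Srt M k ∧ Srt (L ∘ hi) k := by
  obtain ⟨L', M', h1, h2, h3, h4⟩ := h.run hL hM k
  rw [h1.srt_iff, h2.srt_iff, h4.srt_iff, strictMono_lex, strictMono_lex]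
  have e1 : L' ∘ lo = M' ∘ lo := funext h3.lo_eq
  have e2 : (∀ y x, L' (lo y) < L' (hi x)) ↔ ∀ y x, M' (lo y) < M' (hi x) := by
    constructor
    · intro h5 y x
      have h6 : M' (hi x) ∈ Set.range fun x : R => L' (hi x) := by
        rw [h3.range_eq]
        exact ⟨x, rfl⟩
      obtain ⟨z, hz⟩ := h6
      rw [← h3.lo_eq, ← hz]
      exact h5 y z
    · intro h5 y x
      have h6 : L' (hi x) ∈ Set.range fun x : T => M' (hi x) := by
        rw [← h3.range_eq]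
        exact ⟨x, rfl⟩
      obtain ⟨z, hz⟩ := h6
      rw [h3.lo_eq, ← hz]
      exact h5 y z
  have e3 : StrictMono (M' ∘ (hi : T → Q ⊕ₗ T)) := fun s t hst => absurd (hT s t hst.le) hst.ne
  rw [e1, e2]
  constructor
  · rintro ⟨a, b, c⟩
    exact ⟨⟨a, e3, c⟩, b⟩
  · rintro ⟨⟨a, _, c⟩, b⟩
    exact ⟨a, b, c⟩

end Compare

end Pool.Agent.Helper36.EP
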