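import Pool.Agent.Helper36.EP.Osum

/-!
# The counts of an ordinal sum
-/

set_option autoImplicit false

namespace Pool.Agent.Helper36.EP

open Finset

variable {Q R T : Type} [PartialOrder Q] [PartialOrder R] [PartialOrder T]
  [Fintype Q] [Fintype R] [Fintype T]

/-- the count of an ordinal sum as a sum over the label sets of the lower part -/
theorem aa_lex (k : ℕ) {n : ℕ} (hn : n = Fintype.card Q + Fintype.card R) :
    aa (Q ⊕ₗ R) k = ∑ S : Finset (Fin n),
      Nat.card {y : (Q ≃ {x // x ∈ S}) × (R ≃ {x // x ∉ S}) //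
        Srt (fun z : Q ⊕ₗ R => ((glue S y (ofLex z) : Fin n) : ℕ)) k} := by
  have hn' : Fintype.card (Q ⊕ₗ R) = n := by
    rw [Fintype.card_lex, Fintype.card_sum, hn]
  rw [aa_eq_cnt (P := Q ⊕ₗ R) (I := Fin n) (v := fun i => (i : ℕ))
    (fun a b hab => hab) (by rw [Fintype.card_fin, hn'])]
  unfold cnt
  have h1 : Nat.card {e : (Q ⊕ₗ R) ≃ Fin n // Srt (fun x => (e x : ℕ)) k} =
      Nat.card {e : (Q ⊕ R) ≃ Fin n // Srt (fun x : Q ⊕ₗ R => (e (ofLex x) : ℕ)) k} := by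
    refine Nat.card_congr (Equiv.subtypeEquiv (Equiv.equivCongr ofLex (Equiv.refl _)) ?_)
    intro e
    rfl
  rw [h1, card_glue (A := Q) (B := R)
    (fun e => Srt (fun x : Q ⊕ₗ R => ((e (ofLex x) : Fin _) : ℕ)) k)]

theorem glue_inj' {n : ℕ} (S : Finset (Fin n)) (y : (Q ≃ {x // x ∈ S}) × (R ≃ {x // x ∉ S})) :
    Function.Injective (fun z : Q ⊕ₗ R => ((glue S y (ofLex z) : Fin n) : ℕ)) :=
  fun _ _ hab => ofLex.injective ((glue S y).injective (Fin.val_injective hab))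

theorem cmp_glue {n : ℕ} (S : Finset (Fin n)) (e : Q ≃ {x // x ∈ S}) (f : R ≃ {x // x ∉ S})
    (g : T ≃ {x // x ∉ S}) :
    Cmp (fun z : Q ⊕ₗ R => ((glue S (e, f) (ofLex z) : Fin n) : ℕ))
      (fun z : Q ⊕ₗ T => ((glue S (e, g) (ofLex z) : Fin n) : ℕ)) := by
  refine ⟨fun y => rfl, ?_⟩
  ext v
  constructor
  · rintro ⟨x, rfl⟩
    refine ⟨g.symm (f x), ?_⟩
    change (((g (g.symm (f x)) : {x // x ∉ S}) : Fin n) : ℕ) = (((f x : {x // x ∉ S}) : Fin n) : ℕ)
    rw [g.apply_symm_apply]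
  · rintro ⟨x, rfl⟩
    refine ⟨f.symm (g x), ?_⟩
    change (((f (f.symm (g x)) : {x // x ∉ S}) : Fin n) : ℕ) = (((g x : {x // x ∉ S}) : Fin n) : ℕ)
    rw [f.apply_symm_apply]

/-- the term of a label set -/
theorem card_lex_S [Nonempty R] [Nonempty T] (hT : ∀ s t : T, s ≤ t → s = t)
    (hRT : Fintype.card R = Fintype.card T) {n : ℕ} (hn : n = Fintype.card Q + Fintype.card R)
    (k : ℕ) (S : Finset (Fin n)) :
    Nat.card {y : (Q ≃ {x // x ∈ S}) × (R ≃ {x // x ∉ S}) //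
        Srt (fun z : Q ⊕ₗ R => ((glue S y (ofLex z) : Fin n) : ℕ)) k} *
      (Fintype.card T).factorial =
    Nat.card {y : (Q ≃ {x // x ∈ S}) × (T ≃ {x // x ∉ S}) //
        Srt (fun z : Q ⊕ₗ T => ((glue S y (ofLex z) : Fin n) : ℕ)) k} * aa R k := by
  classical
  by_cases hS : S.card = Fintype.card Q
  · have c2 : Fintype.card {x // x ∉ S} = Fintype.card R := by
      rw [Fintype.card_subtype_compl, Fintype.card_coe, Fintype.card_fin, hS, hn]
      omega
    let g₀ : T ≃ {x // x ∉ S} := Fintype.equivOfCardEq (by rw [c2, hRT])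
    let Γ : (Q ≃ {x // x ∈ S}) → Prop := fun e =>
      Srt (fun z : Q ⊕ₗ T => ((glue S (e, g₀) (ofLex z) : Fin n) : ℕ)) k
    -- the left side
    have h1 : ∀ y : (Q ≃ {x // x ∈ S}) × (R ≃ {x // x ∉ S}),
        Srt (fun z : Q ⊕ₗ R => ((glue S y (ofLex z) : Fin n) : ℕ)) k ↔
        Γ y.1 ∧ Srt (fun b => (((y.2 b : {x // x ∉ S}) : Fin n) : ℕ)) k := by
      rintro ⟨e, f⟩
      exact (cmp_glue S e f g₀).srt hT (glue_inj' S (e, f)) (glue_inj' S (e, g₀)) k
    have h2 : ∀ y : (Q ≃ {x // x ∈ S}) × (T ≃ {x // x ∉ S}),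
        Srt (fun z : Q ⊕ₗ T => ((glue S y (ofLex z) : Fin n) : ℕ)) k ↔ Γ y.1 ∧ True := by
      rintro ⟨e, f⟩
      rw [(cmp_glue S e f g₀).srt hT (glue_inj' S (e, f)) (glue_inj' S (e, g₀)) k]
      refine and_congr_right fun _ => ⟨fun _ => trivial, fun _ => ?_⟩
      exact ⟨_, Rn.exists _ k |>.choose_spec, fun s t hst => absurd (hT s t hst.le) hst.ne⟩
    have e1 : Nat.card {y : (Q ≃ {x // x ∈ S}) × (R ≃ {x // x ∉ S}) //
        Srt (fun z : Q ⊕ₗ R => ((glue S y (ofLex z) : Fin n) : ℕ)) k} =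
        Nat.card {e // Γ e} * aa R k := by
      rw [aa_eq_cnt (P := R) (v := fun x : {x // x ∉ S} => ((x : Fin n) : ℕ))
        (fun a b hab => hab) c2]
      unfold cnt
      rw [← Nat.card_prod]
      refine Nat.card_congr ((Equiv.subtypeEquivRight h1).trans ?_)
      exact Equiv.subtypeProdEquivProd (p := Γ)
        (q := fun e : R ≃ {x // x ∉ S} => Srt (fun b => (((e b : {x // x ∉ S}) : Fin n) : ℕ)) k)
    have e2 : Nat.card {y : (Q ≃ {x // x ∈ S}) × (T ≃ {x // x ∉ S}) //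
        Srt (fun z : Q ⊕ₗ T => ((glue S y (ofLex z) : Fin n) : ℕ)) k} =
        Nat.card {e // Γ e} * (Fintype.card T).factorial := by
      have h3 : Nat.card {e : T ≃ {x // x ∉ S} // True} = (Fintype.card T).factorial := by
        rw [Nat.card_congr (Equiv.subtypeUnivEquiv (fun _ => trivial)), Nat.card_eq_fintype_card,
          Fintype.card_equiv g₀]
      rw [← h3, ← Nat.card_prod]
      refine Nat.card_congr ((Equiv.subtypeEquivRight h2).trans ?_)
      exact Equiv.subtypeProdEquivProd (p := Γ) (q := fun _ : T ≃ {x // x ∉ S} => True)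
    rw [e1, e2]
    ring
  · have i1 : IsEmpty {y : (Q ≃ {x // x ∈ S}) × (R ≃ {x // x ∉ S}) //
        Srt (fun z : Q ⊕ₗ R => ((glue S y (ofLex z) : Fin n) : ℕ)) k} :=
      ⟨fun y => hS (by rw [Fintype.card_congr y.1.1, Fintype.card_coe])⟩
    have i2 : IsEmpty {y : (Q ≃ {x // x ∈ S}) × (T ≃ {x // x ∉ S}) //
        Srt (fun z : Q ⊕ₗ T => ((glue S y (ofLex z) : Fin n) : ℕ)) k} :=
      ⟨fun y => hS (by rw [Fintype.card_congr y.1.1, Fintype.card_coe])⟩
    rw [Nat.card_of_isEmpty, Nat.card_of_isEmpty, zero_mul, zero_mul]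

/-- The counts of an ordinal sum: independence of the two parts. -/
theorem aa_osum (hT : ∀ s t : T, s ≤ t → s = t) (hRT : Fintype.card R = Fintype.card T) (k : ℕ) :
    aa (Q ⊕ₗ R) k * (Fintype.card T).factorial = aa (Q ⊕ₗ T) k * aa R k := by
  classical
  rcases isEmpty_or_nonempty R with hR | hR
  · -- both upper parts are empty
    have hT0 : IsEmpty T := Fintype.card_eq_zero_iff.1 (by rw [← hRT, Fintype.card_eq_zero])
    let f : R ≃o T := ⟨Equiv.equivOfIsEmpty R T, fun {a} => (hR.false a).elim⟩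
    rw [aa_iso (OrderIso.sumLexCongr (OrderIso.refl Q) f) k, aa_full (P := R) (k := k)
      (by rw [Fintype.card_eq_zero]; omega), hRT]
  · have hT0 : Nonempty T := Fintype.card_pos_iff.1 (by rw [← hRT]; exact Fintype.card_pos)
    rw [aa_lex k (n := Fintype.card Q + Fintype.card R) rfl,
      aa_lex (Q := Q) (R := T) k (n := Fintype.card Q + Fintype.card R) (by rw [hRT]),
      sum_mul, sum_mul]
    exact sum_congr rfl fun S _ => card_lex_S hT hRT rfl k S

/-- log-concavity at all indices, with the constant continuation -/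
theorem LogConc.all {P : Type} [PartialOrder P] [Fintype P] (h : LogConc P) (i : ℕ) :
    aa P i * aa P (i + 2) ≤ aa P (i + 1) ^ 2 := by
  by_cases h1 : i + 2 ≤ Fintype.card P
  · exact_mod_cast h.ext i h1
  · rw [aa_full (P := P) (k := i + 2) (by omega), aa_full (P := P) (k := i + 1) (by omega), sq]
    exact Nat.mul_le_mul_right _ (aa_le i)

/-- closure under ordinal sums -/
theorem LogConc.osum (hT : ∀ s t : T, s ≤ t → s = t) (hRT : Fintype.card R = Fintype.card T)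
    (h1 : LogConc (Q ⊕ₗ T)) (h2 : LogConc R) : LogConc (Q ⊕ₗ R) := by
  intro i hi _
  obtain ⟨k, rfl⟩ := Nat.exists_eq_add_of_le' hi
  rw [Nat.add_sub_cancel]
  change aa (Q ⊕ₗ R) k * aa (Q ⊕ₗ R) (k + 2) ≤ aa (Q ⊕ₗ R) (k + 1) ^ 2
  have hf : 0 < (Fintype.card T).factorial ^ 2 := by
    have := Nat.factorial_pos (Fintype.card T)
    positivity
  refine le_of_mul_le_mul_right ?_ hf
  have e0 := aa_osum (Q := Q) (R := R) hT hRT k
  have e1 := aa_osum (Q := Q) (R := R) hT hRT (k + 1)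
  have e2 := aa_osum (Q := Q) (R := R) hT hRT (k + 2)
  calc aa (Q ⊕ₗ R) k * aa (Q ⊕ₗ R) (k + 2) * (Fintype.card T).factorial ^ 2
      = (aa (Q ⊕ₗ R) k * (Fintype.card T).factorial) *
        (aa (Q ⊕ₗ R) (k + 2) * (Fintype.card T).factorial) := by ring
    _ = (aa (Q ⊕ₗ T) k * aa (Q ⊕ₗ T) (k + 2)) * (aa R k * aa R (k + 2)) := by
        rw [e0, e2]; ring
    _ ≤ (aa (Q ⊕ₗ T) (k + 1) ^ 2) * (aa R (k + 1) ^ 2) := Nat.mul_le_mul (h1.all k) (h2.all k)
    _ = aa (Q ⊕ₗ R) (k + 1) ^ 2 * (Fintype.card T).factorial ^ 2 := by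
        rw [← mul_pow, ← e1]; ring

end Pool.Agent.Helper36.EP
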