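import Pool.Agent.Helper36.EP.Defs

/-!
# One step of promotion for arbitrary labels
-/

set_option autoImplicit false

namespace Pool.Agent.Helper36.EP

open Relation

variable {P : Type} [PartialOrder P]

open Classical in
/-- where the new label comes from; `none` for the last element of the path -/
noncomputable def nx (O : P → Prop) (S : P → P → Prop) (x : P) : Option P :=
  if O x then (if h : ∃ y, S x y then some h.choose else none) else some x

noncomputable def nxt (L : P → ℕ) (x : P) : Option P := nx (OnPath L) (IsSucc L) x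

/-- one step with the new label `N` -/
noncomputable def stp (L : P → ℕ) (N : ℕ) (x : P) : ℕ := (nxt L x).elim N L

theorem IsSucc.uniq {L : P → ℕ} (hL : Function.Injective L) {x y z : P} (h1 : IsSucc L x y)
    (h2 : IsSucc L x z) : y = z :=
  hL (le_antisymm (h1.2 z h2.1) (h2.2 y h1.1))

theorem nxt_of_succ {L : P → ℕ} (hL : Function.Injective L) {x y : P} (hx : OnPath L x)
    (h : IsSucc L x y) : nxt L x = some y := by
  unfold nxt nx
  rw [if_pos hx, dif_pos ⟨y, h⟩]
  congr 1
  exact IsSucc.uniq hL (Exists.choose_spec (⟨y, h⟩ : ∃ y, IsSucc L x y)) h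

theorem nxt_of_not {L : P → ℕ} {x : P} (hx : ¬ OnPath L x) : nxt L x = some x := by
  unfold nxt nx
  rw [if_neg hx]

theorem exists_succ [Finite P] (L : P → ℕ) {x y : P} (h : x < y) : ∃ z, IsSucc L x z := by
  obtain ⟨z, hz1, hz2⟩ := Set.exists_min_image {z | x < z} L (Set.toFinite _) ⟨y, h⟩
  exact ⟨z, hz1, fun w hw => hz2 w hw⟩

/-- the three cases -/
theorem nxt_cases {L : P → ℕ} (x : P) :
    (¬ OnPath L x ∧ nxt L x = some x) ∨ (∃ y, OnPath L x ∧ IsSucc L x y ∧ nxt L x = some y) ∨
      (OnPath L x ∧ (¬ ∃ y, IsSucc L x y) ∧ nxt L x = none) := by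
  by_cases hx : OnPath L x
  · right
    by_cases h : ∃ y, IsSucc L x y
    · left
      refine ⟨h.choose, hx, h.choose_spec, ?_⟩
      unfold nxt nx
      rw [if_pos hx, dif_pos h]
    · right
      refine ⟨hx, h, ?_⟩
      unfold nxt nx
      rw [if_pos hx, dif_neg h]
  · left
    exact ⟨hx, nxt_of_not hx⟩

theorem rtg_le {L : P → ℕ} {x y : P} (h : ReflTransGen (IsSucc L) x y) : x ≤ y := by
  induction h with
  | refl => exact le_rfl
  | tail _ h ih => exact ih.trans h.1.le

theorem OnPath.next {L : P → ℕ} {x y : P} (hx : OnPath L x) (h : IsSucc L x y) : OnPath L y := by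
  obtain ⟨m, hm, hmx⟩ := hx
  exact ⟨m, hm, hmx.tail h⟩

theorem OnPath.total {L : P → ℕ} (hL : Function.Injective L) {x y : P} (hx : OnPath L x)
    (hy : OnPath L y) : ReflTransGen (IsSucc L) x y ∨ ReflTransGen (IsSucc L) y x := by
  obtain ⟨m, hm, hmx⟩ := hx
  obtain ⟨m', hm', hmy⟩ := hy
  have h : m = m' := hL (le_antisymm (hm m') (hm' m))
  subst h
  exact ReflTransGen.total_of_right_unique (fun _ _ _ h1 h2 => IsSucc.uniq hL h1 h2) hmx hmy

theorem nxt_inj_aux {L : P → ℕ} (hL : Function.Injective L) {x y : P} (hx : OnPath L x)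
    (h : ReflTransGen (IsSucc L) x y) (he : nxt L x = nxt L y) : x = y := by
  by_contra hne
  rcases ReflTransGen.cases_head h with h1 | ⟨z, hz, hzy⟩
  · exact hne h1
  · have h1 := nxt_of_succ hL hx hz
    have hzy' := rtg_le hzy
    rcases nxt_cases (L := L) y with ⟨_, h2⟩ | ⟨w, _, hw, h2⟩ | ⟨_, _, h2⟩
    · rw [h1, h2] at he
      have h3 : z = y := Option.some.inj he
      rename_i hny
      exact hny (h3 ▸ hx.next hz)
    · rw [h1, h2] at he
      have h3 : z = w := Option.some.inj he
      subst h3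
      exact hzy'.not_gt hw.1
    · rw [h1, h2] at he
      cases he

theorem nxt_inj {L : P → ℕ} (hL : Function.Injective L) : Function.Injective (nxt L) := by
  intro x y he
  by_cases hx : OnPath L x
  · by_cases hy : OnPath L y
    · rcases hx.total hL hy with h | h
      · exact nxt_inj_aux hL hx h he
      · exact (nxt_inj_aux hL hy h he.symm).symm
    · rw [nxt_of_not hy] at he
      rcases nxt_cases (L := L) x with ⟨h1, _⟩ | ⟨w, _, hw, h2⟩ | ⟨_, _, h2⟩
      · exact absurd hx h1
      · rw [h2] at he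
        have h3 : w = y := Option.some.inj he
        exact absurd (h3 ▸ hx.next hw) hy
      · rw [h2] at he
        cases he
  · rw [nxt_of_not hx] at he
    by_cases hy : OnPath L y
    · rcases nxt_cases (L := L) y with ⟨h1, _⟩ | ⟨w, _, hw, h2⟩ | ⟨_, _, h2⟩
      · exact absurd hy h1
      · rw [h2] at he
        have h3 : x = w := Option.some.inj he
        exact absurd (h3 ▸ hy.next hw) hx
      · rw [h2] at he
        cases he
    · rw [nxt_of_not hy] at he
      exact Option.some.inj he

theorem nxt_ne_min {L : P → ℕ} (hL : Function.Injective L) {m : P} (hm : ∀ z, L m ≤ L z) (x : P) :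
    nxt L x ≠ some m := by
  intro h
  rcases nxt_cases (L := L) x with ⟨h1, h2⟩ | ⟨w, hx, hw, h2⟩ | ⟨_, _, h2⟩
  · rw [h2] at h
    have h3 : x = m := Option.some.inj h
    exact h1 ⟨m, hm, h3 ▸ ReflTransGen.refl⟩
  · rw [h2] at h
    have h3 : w = m := Option.some.inj h
    obtain ⟨m', hm', hmx⟩ := hx
    have h4 : m' = m := hL (le_antisymm (hm' m) (hm m'))
    have h5 := rtg_le hmx
    rw [h4] at h5
    exact h5.not_gt (h3 ▸ hw.1)
  · rw [h2] at h
    cases h

theorem nxt_surj [Fintype P] {L : P → ℕ} (hL : Function.Injective L) {m : P}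
    (hm : ∀ z, L m ≤ L z) (o : Option P) (ho : o ≠ some m) : ∃ x, nxt L x = o := by
  classical
  have h1 : Finset.univ.image (nxt L) ⊆ Finset.univ.erase (some m) := by
    intro a ha
    obtain ⟨x, _, rfl⟩ := Finset.mem_image.1 ha
    exact Finset.mem_erase.2 ⟨nxt_ne_min hL hm x, Finset.mem_univ _⟩
  have h2 : (Finset.univ.erase (some m)).card ≤ (Finset.univ.image (nxt L)).card := by
    rw [Finset.card_image_of_injective _ (nxt_inj hL), Finset.card_erase_of_mem
      (Finset.mem_univ _), Finset.card_univ, Finset.card_univ, Fintype.card_option]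
    omega
  have h3 := Finset.eq_of_subset_of_card_le h1 h2
  have h4 : o ∈ Finset.univ.image (nxt L) := by
    rw [h3]
    exact Finset.mem_erase.2 ⟨ho, Finset.mem_univ _⟩
  obtain ⟨x, _, hx⟩ := Finset.mem_image.1 h4
  exact ⟨x, hx⟩

theorem stp_inj {L : P → ℕ} (hL : Function.Injective L) {N : ℕ} (hN : ∀ x, L x < N) :
    Function.Injective (stp L N) := by
  intro x y h
  apply nxt_inj hL
  unfold stp at h
  rcases hx : nxt L x with _ | a <;> rcases hy : nxt L y with _ | b
  · rfl
  · rw [hx, hy] at h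
    exact absurd h (hN b).ne'
  · rw [hx, hy] at h
    exact absurd h (hN a).ne
  · rw [hx, hy] at h
    rw [hL h]

theorem range_stp [Fintype P] {L : P → ℕ} (hL : Function.Injective L) {m : P}
    (hm : ∀ z, L m ≤ L z) (N : ℕ) :
    Set.range (stp L N) = insert N (Set.range L \ {L m}) := by
  ext v
  constructor
  · rintro ⟨x, rfl⟩
    unfold stp
    rcases hx : nxt L x with _ | a
    · exact Set.mem_insert _ _
    · refine Set.mem_insert_of_mem _ ⟨⟨a, rfl⟩, fun h => ?_⟩
      have h1 : a = m := hL h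
      exact nxt_ne_min hL hm x (h1 ▸ hx)
  · rintro (rfl | ⟨⟨a, rfl⟩, ha⟩)
    · obtain ⟨x, hx⟩ := nxt_surj hL hm none (by simp)
      exact ⟨x, by unfold stp; rw [hx]; rfl⟩
    · have h1 : a ≠ m := fun h => ha (by rw [h]; rfl)
      obtain ⟨x, hx⟩ := nxt_surj hL hm (some a) (fun h => h1 (Option.some.inj h))
      exact ⟨x, by unfold stp; rw [hx]; rfl⟩

/-! ### order equivalence -/

/-- order equivalent labels -/
def OE (L M : P → ℕ) : Prop := ∀ x y, L x ≤ L y ↔ M x ≤ M y

omit [PartialOrder P] in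
theorem OE.refl (L : P → ℕ) : OE L L := fun _ _ => Iff.rfl

omit [PartialOrder P] in
theorem OE.symm {L M : P → ℕ} (h : OE L M) : OE M L := fun x y => (h x y).symm

omit [PartialOrder P] in
theorem OE.trans {L M K : P → ℕ} (h : OE L M) (h' : OE M K) : OE L K :=
  fun x y => (h x y).trans (h' x y)

omit [PartialOrder P] in
theorem OE.lt {L M : P → ℕ} (h : OE L M) (x y : P) : L x < L y ↔ M x < M y := by
  rw [← not_le, ← not_le, h y x]

omit [PartialOrder P] in
theorem OE.inj {L M : P → ℕ} (h : OE L M) (hL : Function.Injective L) : Function.Injective M := by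
  intro x y hxy
  exact hL (le_antisymm ((h x y).2 hxy.le) ((h y x).2 hxy.ge))

omit [PartialOrder P] in
theorem OE.comp {L : P → ℕ} {φ : ℕ → ℕ} (hφ : StrictMono φ) : OE L (φ ∘ L) :=
  fun _ _ => hφ.le_iff_le.symm

theorem OE.isSucc {L M : P → ℕ} (h : OE L M) : IsSucc L = IsSucc M := by
  funext x y
  apply propext
  unfold IsSucc
  simp only [h y _]

theorem OE.onPath {L M : P → ℕ} (h : OE L M) : OnPath L = OnPath M := by
  funext x
  apply propext
  unfold OnPath
  rw [h.isSucc]
  simp only [h _ _]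

theorem OE.nxt {L M : P → ℕ} (h : OE L M) : nxt L = nxt M := by
  funext x
  unfold EP.nxt
  rw [h.isSucc, h.onPath]

theorem OE.stp {L M : P → ℕ} (h : OE L M) {N N' : ℕ} (hN : ∀ x, L x < N) (hN' : ∀ x, M x < N') :
    OE (stp L N) (stp M N') := by
  intro x y
  unfold EP.stp
  rw [h.nxt]
  rcases EP.nxt M x with _ | a <;> rcases EP.nxt M y with _ | b
  · exact Iff.intro (fun _ => le_rfl) (fun _ => le_rfl)
  · exact Iff.intro (fun h => absurd h (not_le.2 (hN b))) (fun h => absurd h (not_le.2 (hN' b)))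
  · exact Iff.intro (fun _ => (hN' a).le) (fun _ => (hN a).le)
  · exact h a b

theorem stp_comp {L : P → ℕ} {φ : ℕ → ℕ} (hφ : StrictMono φ) (N : ℕ) :
    stp (φ ∘ L) (φ N) = φ ∘ stp L N := by
  funext x
  unfold stp
  rw [← (OE.comp (L := L) hφ).nxt]
  change _ = φ ((nxt L x).elim N L)
  rcases nxt L x with _ | a <;> rfl

/-! ### good elements -/

/-- all elements with label at least `c` have only larger labels above them -/
def Gd (L : P → ℕ) (c : ℕ) : Prop := ∀ x, c ≤ L x → ∀ y, x < y → L x < L y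

theorem Gd.stp [Finite P] {L : P → ℕ} (hL : Function.Injective L) {c N : ℕ} (hN : ∀ x, L x < N)
    (h : Gd L c) : Gd (stp L N) c := by
  -- the new label of an element above a good element
  have key : ∀ y, c ≤ L y → L y ≤ EP.stp L N y := by
    intro y hy
    unfold EP.stp
    rcases nxt_cases (L := L) y with ⟨_, h2⟩ | ⟨w, _, hw, h2⟩ | ⟨_, _, h2⟩
    · rw [h2]; exact le_rfl
    · rw [h2]; exact (h y hy w hw.1).le
    · rw [h2]; exact (hN y).le
  intro x hx y hxy
  rcases nxt_cases (L := L) x with ⟨_, h2⟩ | ⟨z, hxp, hz, h2⟩ | ⟨_, h1, _⟩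
  · have e : EP.stp L N x = L x := by unfold EP.stp; rw [h2]; rfl
    rw [e] at hx ⊢
    have h3 := h x hx y hxy
    exact lt_of_lt_of_le h3 (key y (hx.trans h3.le))
  · have e : EP.stp L N x = L z := by unfold EP.stp; rw [h2]; rfl
    rw [e] at hx ⊢
    have hzy : L z ≤ L y := hz.2 y hxy
    rcases nxt_cases (L := L) y with ⟨hyp, h3⟩ | ⟨w, hyp, hw, h3⟩ | ⟨_, _, h3⟩
    · have e' : EP.stp L N y = L y := by unfold EP.stp; rw [h3]; rfl
      rw [e']
      refine lt_of_le_of_ne hzy fun he => ?_
      exact hyp (hL he ▸ hxp.next hz)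
    · have e' : EP.stp L N y = L w := by unfold EP.stp; rw [h3]; rfl
      rw [e']
      exact lt_of_le_of_lt hzy (h y (hx.trans hzy) w hw.1)
    · have e' : EP.stp L N y = N := by unfold EP.stp; rw [h3]; rfl
      rw [e']
      exact hN z
  · exact absurd (exists_succ L hxy) h1

end Pool.Agent.Helper36.EP
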