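import Pool.Agent.Helper36.EP.Path

/-!
# Runs of promotion with fresh labels
-/

set_option autoImplicit false

namespace Pool.Agent.Helper36.EP

variable {P : Type} [PartialOrder P]

/-- `L'` arises from `L` by `k` steps with fresh labels -/
inductive Rn : (P → ℕ) → ℕ → (P → ℕ) → Prop
  | zero (L : P → ℕ) : Rn L 0 L
  | succ {L L' : P → ℕ} {k N : ℕ} : Rn L k L' → (∀ x, L' x < N) → Rn L (k + 1) (stp L' N)

theorem Rn.inj {L L' : P → ℕ} {k : ℕ} (h : Rn L k L') (hL : Function.Injective L) :
    Function.Injective L' := by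
  induction h with
  | zero => exact hL
  | succ h hN ih => exact stp_inj ih hN

theorem Rn.oe {L L' : P → ℕ} {k : ℕ} (h : Rn L k L') {M M' : P → ℕ} (h' : Rn M k M')
    (hLM : OE L M) : OE L' M' := by
  induction h generalizing M' with
  | zero =>
    cases h'
    exact hLM
  | succ h1 hN ih =>
    cases h' with
    | succ h1' hN' => exact (ih h1').stp hN hN'

omit [PartialOrder P] in
theorem exists_fresh [Finite P] (L : P → ℕ) (c : ℕ) : ∃ N, c ≤ N ∧ ∀ x, L x < N := by
  obtain ⟨b, hb⟩ := (Set.finite_range L).bddAbove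
  refine ⟨max c (b + 1), le_max_left _ _, fun x => ?_⟩
  have := hb ⟨x, rfl⟩
  exact lt_of_lt_of_le (Nat.lt_succ_of_le this) (le_max_right _ _)

theorem Rn.exists [Finite P] (L : P → ℕ) (k : ℕ) : ∃ L', Rn L k L' := by
  induction k with
  | zero => exact ⟨L, Rn.zero L⟩
  | succ k ih =>
    obtain ⟨L', h⟩ := ih
    obtain ⟨N, -, hN⟩ := exists_fresh L' 0
    exact ⟨_, h.succ hN⟩

/-- sorted after `k` steps -/
def Srt (L : P → ℕ) (k : ℕ) : Prop := ∃ L', Rn L k L' ∧ StrictMono L'

theorem OE.strictMono {L M : P → ℕ} (h : OE L M) (hL : StrictMono L) : StrictMono M :=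
  fun _ _ hxy => (h.lt _ _).1 (hL hxy)

theorem Rn.srt_iff {L L' : P → ℕ} {k : ℕ} (h : Rn L k L') : Srt L k ↔ StrictMono L' := by
  constructor
  · rintro ⟨M, hM, hs⟩
    exact (hM.oe h (OE.refl L)).strictMono hs
  · exact fun hs => ⟨L', h, hs⟩

theorem OE.srt [Finite P] {L M : P → ℕ} (h : OE L M) (k : ℕ) : Srt L k ↔ Srt M k := by
  obtain ⟨L', hL⟩ := Rn.exists L k
  obtain ⟨M', hM⟩ := Rn.exists M k
  rw [hL.srt_iff, hM.srt_iff]
  exact ⟨(hL.oe hM h).strictMono, (hM.oe hL h.symm).strictMono⟩

theorem Gd.strictMono {L : P → ℕ} (h : Gd L 0) : StrictMono L :=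
  fun x y hxy => h x (Nat.zero_le _) y hxy

theorem Srt.succ [Finite P] {L : P → ℕ} (hL : Function.Injective L) {k : ℕ} (h : Srt L k) :
    Srt L (k + 1) := by
  obtain ⟨L', h1, h2⟩ := h
  obtain ⟨N, -, hN⟩ := exists_fresh L' 0
  refine ⟨_, h1.succ hN, Gd.strictMono ?_⟩
  exact Gd.stp (h1.inj hL) hN (fun x _ y hxy => h2 hxy)

theorem Srt.mono [Finite P] {L : P → ℕ} (hL : Function.Injective L) {k l : ℕ} (hkl : k ≤ l)
    (h : Srt L k) : Srt L l := by
  induction hkl with
  | refl => exact h
  | step _ ih => exact ih.succ hL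

/-- all labelings are sorted after `n - 1` steps -/
theorem srt_of_card_le [Fintype P] {L : P → ℕ} (hL : Function.Injective L) {k : ℕ}
    (hk : Fintype.card P ≤ k + 1) : Srt L k := by
  classical
  obtain ⟨c, -, hc⟩ := exists_fresh L 0
  have key : ∀ k, ∃ L', Rn L k L' ∧ Gd L' c ∧
      (Finset.univ.filter fun x => L' x < c).card ≤ Fintype.card P - k := by
    intro k
    induction k with
    | zero =>
      refine ⟨L, Rn.zero L, fun x hx => absurd hx (not_le.2 (hc x)), ?_⟩
      exact Finset.card_le_univ _
    | succ k ih =>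
      obtain ⟨L', h1, h2, h3⟩ := ih
      obtain ⟨N, hcN, hN⟩ := exists_fresh L' c
      refine ⟨_, h1.succ hN, h2.stp (h1.inj hL) hN, ?_⟩
      by_cases he : ∃ x, L' x < c
      · obtain ⟨x₀, hx₀⟩ := he
        have : Nonempty P := ⟨x₀⟩
        obtain ⟨m, -, hm⟩ := Finset.exists_min_image Finset.univ L' ⟨x₀, Finset.mem_univ _⟩
        have hm' : ∀ z, L' m ≤ L' z := fun z => hm z (Finset.mem_univ _)
        have hmc : L' m < c := lt_of_le_of_lt (hm' x₀) hx₀
        have h4 : ((Finset.univ.filter fun x => stp L' N x < c).image (stp L' N)) ⊆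
            ((Finset.univ.filter fun x => L' x < c).erase m).image L' := by
          intro v hv
          obtain ⟨x, hx, rfl⟩ := Finset.mem_image.1 hv
          have hx' : stp L' N x < c := (Finset.mem_filter.1 hx).2
          have h5 : stp L' N x ∈ insert N (Set.range L' \ {L' m}) := by
            rw [← range_stp (h1.inj hL) hm' N]
            exact ⟨x, rfl⟩
          rcases h5 with h5 | ⟨⟨a, ha⟩, h6⟩
          · omega
          · refine Finset.mem_image.2 ⟨a, Finset.mem_erase.2 ⟨fun h7 => h6 ?_,
              Finset.mem_filter.2 ⟨Finset.mem_univ _, ?_⟩⟩, ha⟩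
            · rw [← ha, h7]
              rfl
            · rw [ha]
              exact hx'
        have h5 := Finset.card_le_card h4
        rw [Finset.card_image_of_injective _ (stp_inj (h1.inj hL) hN),
          Finset.card_image_of_injective _ (h1.inj hL), Finset.card_erase_of_mem (a := m)
          (Finset.mem_filter.2 ⟨Finset.mem_univ _, hmc⟩)] at h5
        omega
      · push Not at he
        have h4 : (Finset.univ.filter fun x => stp L' N x < c) = ∅ := by
          refine Finset.filter_eq_empty_iff.2 fun x _ => ?_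
          rw [not_lt]
          unfold stp
          rcases nxt L' x with _ | a
          · exact hcN
          · exact he a
        rw [h4, Finset.card_empty]
        exact Nat.zero_le _
  obtain ⟨L', h1, h2, h3⟩ := key k
  refine ⟨L', h1, fun x y hxy => ?_⟩
  by_cases hx : c ≤ L' x
  · exact h2 x hx y hxy
  · push Not at hx
    by_cases hy : c ≤ L' y
    · exact lt_of_lt_of_le hx hy
    · push Not at hy
      have h4 : ({x, y} : Finset P) ⊆ Finset.univ.filter fun x => L' x < c := by
        intro z hz
        rcases Finset.mem_insert.1 hz with rfl | hz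
        · exact Finset.mem_filter.2 ⟨Finset.mem_univ _, hx⟩
        · rw [Finset.mem_singleton.1 hz]
          exact Finset.mem_filter.2 ⟨Finset.mem_univ _, hy⟩
      have h5 := Finset.card_le_card h4
      rw [Finset.card_pair hxy.ne] at h5
      omega

/-! ### extended promotion as a run -/

theorem prom_eq [Fintype P] {L : P → ℕ} (hL : ∀ x, 1 ≤ L x) (x : P) :
    prom L x + 1 = stp L (Fintype.card P + 1) x := by
  unfold prom stp nxt nx
  by_cases h1 : OnPath L x
  · rw [if_pos h1, if_pos h1]
    by_cases h2 : ∃ y, IsSucc L x y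
    · rw [dif_pos h2, dif_pos h2]
      exact Nat.sub_add_cancel (hL _)
    · rw [dif_neg h2, dif_neg h2]
      rfl
  · rw [if_neg h1, if_neg h1]
    exact Nat.sub_add_cancel (hL _)

theorem prom_iter [Fintype P] {L : P → ℕ} (hL : Function.Injective L)
    (hr : Set.range L = Set.Icc 1 (Fintype.card P)) (k : ℕ) :
    Rn L k (fun x => prom^[k] L x + k) ∧ Function.Injective (prom^[k] L) ∧
      Set.range (prom^[k] L) = Set.Icc 1 (Fintype.card P) := by
  induction k with
  | zero => exact ⟨Rn.zero L, hL, hr⟩
  | succ k ih =>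
    obtain ⟨h1, h2, h3⟩ := ih
    rw [Function.iterate_succ_apply']
    set M : P → ℕ := prom^[k] L with hM
    have hM1 : ∀ x, M x ∈ Set.Icc 1 (Fintype.card P) := fun x => by
      rw [← h3]
      exact ⟨x, rfl⟩
    have h4 : ∀ x, prom M x + 1 = stp M (Fintype.card P + 1) x := prom_eq fun x => (hM1 x).1
    have hφ : StrictMono fun a : ℕ => a + k := fun a b hab => Nat.add_lt_add_right hab k
    have h5 : (fun x => prom M x + (k + 1)) = stp (fun x => M x + k) (Fintype.card P + 1 + k) := by
      have h6 := stp_comp (L := M) hφ (Fintype.card P + 1)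
      funext x
      have h7 := congrFun h6 x
      have h8 : stp ((fun a => a + k) ∘ M) ((fun a => a + k) (Fintype.card P + 1)) x =
        stp M (Fintype.card P + 1) x + k := h7
      have h9 := h4 x
      have h10 : stp (fun x => M x + k) (Fintype.card P + 1 + k) x =
        stp M (Fintype.card P + 1) x + k := h8
      omega
    refine ⟨?_, ?_, ?_⟩
    · rw [h5]
      exact h1.succ fun x => by
        have := (hM1 x).2
        omega
    · intro x y hxy
      have h6 : stp M (Fintype.card P + 1) x = stp M (Fintype.card P + 1) y := by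
        rw [← h4, ← h4, hxy]
      exact stp_inj h2 (fun x => Nat.lt_succ_of_le (hM1 x).2) h6
    · rcases isEmpty_or_nonempty P with hP | hP
      · rw [Set.range_eq_empty, ← h3, Set.range_eq_empty]
      · obtain ⟨m, -, hm⟩ := Finset.exists_min_image Finset.univ M
          ⟨hP.some, Finset.mem_univ _⟩
        have hm' : ∀ z, M m ≤ M z := fun z => hm z (Finset.mem_univ _)
        have hcard : 1 ≤ Fintype.card P := Fintype.card_pos
        have hm1 : M m = 1 := by
          have h6 : 1 ∈ Set.range M := by
            rw [h3]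
            exact ⟨le_rfl, hcard⟩
          obtain ⟨x, hx⟩ := h6
          have := hm' x
          have := (hM1 m).1
          omega
        have h6 := range_stp h2 hm' (Fintype.card P + 1)
        rw [h3, hm1] at h6
        ext v
        constructor
        · rintro ⟨x, rfl⟩
          have h7 : stp M (Fintype.card P + 1) x ∈
              insert (Fintype.card P + 1) (Set.Icc 1 (Fintype.card P) \ {1}) := by
            rw [← h6]
            exact ⟨x, rfl⟩
          rw [← h4] at h7
          rcases h7 with h7 | ⟨h7, h8⟩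
          · exact ⟨by omega, by omega⟩
          · have h9 := h7.1
            have h10 := h7.2
            have h11 : prom M x + 1 ≠ 1 := h8
            exact ⟨by omega, by omega⟩
        · intro hv
          have h7 : v + 1 ∈ insert (Fintype.card P + 1) (Set.Icc 1 (Fintype.card P) \ {1}) := by
            by_cases h8 : v = Fintype.card P
            · left
              rw [h8]
            · right
              refine ⟨⟨by omega, ?_⟩, ?_⟩
              · have := hv.2
                omega
              · have := hv.1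
                simp only [Set.mem_singleton_iff]
                omega
          rw [← h6] at h7
          obtain ⟨x, hx⟩ := h7
          exact ⟨x, by have := h4 x; omega⟩

theorem srt_iff_prom [Fintype P] {L : P → ℕ} (hL : Function.Injective L)
    (hr : Set.range L = Set.Icc 1 (Fintype.card P)) (k : ℕ) :
    StrictMono (prom^[k] L) ↔ Srt L k := by
  rw [(prom_iter hL hr k).1.srt_iff]
  constructor
  · intro h x y hxy
    exact Nat.add_lt_add_right (h hxy) k
  · intro h x y hxy
    have := h hxy
    exact Nat.lt_of_add_lt_add_right this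

omit [PartialOrder P] in
theorem lab_inj {n : ℕ} (e : P ≃ Fin n) : Function.Injective (lab e) := by
  intro x y hxy
  unfold lab at hxy
  exact e.injective (Fin.ext (Nat.succ_injective hxy))

omit [PartialOrder P] in
theorem lab_range {n : ℕ} (e : P ≃ Fin n) : Set.range (lab e) = Set.Icc 1 n := by
  ext v
  constructor
  · rintro ⟨x, rfl⟩
    unfold lab
    exact ⟨by omega, (e x).2⟩
  · intro hv
    have h1 := hv.1
    have h2 := hv.2
    refine ⟨e.symm ⟨v - 1, by omega⟩, ?_⟩
    unfold lab
    rw [e.apply_symm_apply]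
    simp only
    omega

/-- the number of bijections `P ≃ I` which are sorted after `k` steps -/
noncomputable def cnt (P : Type) [PartialOrder P] {I : Type} (v : I → ℕ) (k : ℕ) : ℕ :=
  Nat.card {e : P ≃ I // Srt (fun x => v (e x)) k}

theorem aa_eq_cnt [Fintype P] {I : Type} [Fintype I] [LinearOrder I] {v : I → ℕ}
    (hv : StrictMono v) (hI : Fintype.card I = Fintype.card P) (k : ℕ) :
    aa P k = cnt P v k := by
  unfold aa cnt
  let ψ : Fin (Fintype.card P) ≃o I := Fintype.orderIsoFinOfCardEq I hI
  refine Nat.card_congr (Equiv.subtypeEquiv (Equiv.equivCongr (Equiv.refl P) ψ.toEquiv) ?_)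
  intro e
  rw [srt_iff_prom (lab_inj e) (lab_range e)]
  apply OE.srt
  intro x y
  change (e x : ℕ) + 1 ≤ (e y : ℕ) + 1 ↔ v (ψ (e x)) ≤ v (ψ (e y))
  rw [hv.le_iff_le, ψ.le_iff_le, Fin.le_def]
  omega

theorem cnt_eq_zero [Fintype P] {I : Type} [Fintype I] {v : I → ℕ}
    (hI : Fintype.card I ≠ Fintype.card P) (k : ℕ) : cnt P v k = 0 := by
  unfold cnt
  have : IsEmpty {e : P ≃ I // Srt (fun x => v (e x)) k} :=
    ⟨fun e => hI (Fintype.card_congr e.1).symm⟩
  exact Nat.card_of_isEmpty

/-! ### first properties of the counts -/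

theorem aa_le [Fintype P] (k : ℕ) : aa P k ≤ (Fintype.card P).factorial := by
  classical
  unfold aa
  rw [Nat.card_eq_fintype_card]
  refine (Fintype.card_subtype_le _).trans (le_of_eq ?_)
  rw [Fintype.card_equiv (Fintype.equivFin P)]

theorem aa_full [Fintype P] {k : ℕ} (hk : Fintype.card P ≤ k + 1) :
    aa P k = (Fintype.card P).factorial := by
  classical
  unfold aa
  rw [Nat.card_eq_fintype_card]
  have h1 : Fintype.card {e : P ≃ Fin (Fintype.card P) // StrictMono (prom^[k] (lab e))} =
      Fintype.card (P ≃ Fin (Fintype.card P)) := by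
    rw [Fintype.card_subtype]
    rw [Finset.filter_true_of_mem]
    · rfl
    · intro e _
      rw [srt_iff_prom (lab_inj e) (lab_range e)]
      exact srt_of_card_le (lab_inj e) hk
  rw [h1, Fintype.card_equiv (Fintype.equivFin P)]

end Pool.Agent.Helper36.EP
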