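import Pool.Agent.Helper36.EP.Run

/-!
# Up-closed parts of a poset, disjoint unions
-/

set_option autoImplicit false

namespace Pool.Agent.Helper36.EP

open Relation

/-! ### up-closed embeddings -/

section Up

variable {P R : Type} [PartialOrder P] [PartialOrder R]

/-- an up-closed embedding -/
structure UpEmb (ι : P → R) : Prop where
  lt : ∀ x y, ι x < ι y ↔ x < y
  inj : Function.Injective ι
  up : ∀ x z, ι x < z → ∃ y, z = ι y

variable {ι : P → R} (hι : UpEmb ι) (L : R → ℕ)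
include hι

theorem UpEmb.isSucc (x y : P) : IsSucc L (ι x) (ι y) ↔ IsSucc (L ∘ ι) x y := by
  constructor
  · rintro ⟨h1, h2⟩
    exact ⟨(hι.lt _ _).1 h1, fun z hz => h2 _ ((hι.lt _ _).2 hz)⟩
  · rintro ⟨h1, h2⟩
    refine ⟨(hι.lt _ _).2 h1, fun z hz => ?_⟩
    obtain ⟨w, rfl⟩ := hι.up _ _ hz
    exact h2 w ((hι.lt _ _).1 hz)

theorem UpEmb.rtg (x y : P) : ReflTransGen (IsSucc L) (ι x) (ι y) ↔
    ReflTransGen (IsSucc (L ∘ ι)) x y := by
  constructor
  · intro h
    have key : ∀ z, ReflTransGen (IsSucc L) (ι x) z → ∃ y, z = ι y ∧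
        ReflTransGen (IsSucc (L ∘ ι)) x y := by
      intro z hz
      induction hz with
      | refl => exact ⟨x, rfl, ReflTransGen.refl⟩
      | tail _ h2 ih =>
        obtain ⟨w, rfl, hw⟩ := ih
        obtain ⟨w', rfl⟩ := hι.up _ _ h2.1
        exact ⟨w', rfl, hw.tail ((hι.isSucc L _ _).1 h2)⟩
    obtain ⟨y', h1, h2⟩ := key _ h
    rw [hι.inj h1]
    exact h2
  · intro h
    exact ReflTransGen.lift ι (fun a b hab => (hι.isSucc L a b).2 hab) _ _ h

theorem UpEmb.nxt {L : R → ℕ} (hL : Function.Injective L)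
    (hp : ∀ x, OnPath L (ι x) ↔ OnPath (L ∘ ι) x) (x : P) :
    nxt L (ι x) = (nxt (L ∘ ι) x).map ι := by
  rcases nxt_cases (L := L ∘ ι) x with ⟨h1, h2⟩ | ⟨y, h1, h3, h2⟩ | ⟨h1, h3, h2⟩
  · rw [h2, nxt_of_not (fun h => h1 ((hp x).1 h))]
    rfl
  · rw [h2, nxt_of_succ hL ((hp x).2 h1) ((hι.isSucc L _ _).2 h3)]
    rfl
  · rw [h2]
    rcases nxt_cases (L := L) (ι x) with ⟨h4, _⟩ | ⟨z, _, h5, _⟩ | ⟨_, _, h4⟩
    · exact absurd ((hp x).2 h1) h4
    · obtain ⟨w, rfl⟩ := hι.up _ _ h5.1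
      exact absurd ⟨w, (hι.isSucc L _ _).1 h5⟩ h3
    · rw [h4]
      rfl

theorem UpEmb.stp {L : R → ℕ} (hL : Function.Injective L)
    (hp : ∀ x, OnPath L (ι x) ↔ OnPath (L ∘ ι) x) (N : ℕ) :
    stp L N ∘ ι = stp (L ∘ ι) N := by
  funext x
  change (EP.nxt L (ι x)).elim N L = (EP.nxt (L ∘ ι) x).elim N (L ∘ ι)
  rw [hι.nxt hL hp]
  rcases EP.nxt (L ∘ ι) x with _ | a <;> rfl

/-- the path when the smallest label is in the up-closed part -/
theorem UpEmb.onPath {L : R → ℕ} (hL : Function.Injective L) {a : P} (ha : ∀ z, L (ι a) ≤ L z)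
    (x : P) : OnPath L (ι x) ↔ OnPath (L ∘ ι) x := by
  constructor
  · rintro ⟨m, hm, h⟩
    have h1 : m = ι a := hL (le_antisymm (hm _) (ha _))
    rw [h1] at h
    exact ⟨a, fun z => ha _, (hι.rtg L _ _).1 h⟩
  · rintro ⟨m, hm, h⟩
    refine ⟨ι m, fun z => (hm a).trans (ha z), (hι.rtg L _ _).2 h⟩

end Up

/-! ### the splitting of the labelings -/

section Glue

variable {A B : Type} {I : Type} [DecidableEq I]

/-- a bijection of a sum from two bijections -/
def glue (S : Finset I) (e : (A ≃ {x // x ∈ S}) × (B ≃ {x // x ∉ S})) : A ⊕ B ≃ I :=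
  (Equiv.sumCongr e.1 e.2).trans (Equiv.sumCompl (· ∈ S))

theorem glue_inl (S : Finset I) (e : (A ≃ {x // x ∈ S}) × (B ≃ {x // x ∉ S})) (a : A) :
    glue S e (Sum.inl a) = (e.1 a : I) := rfl

theorem glue_inr (S : Finset I) (e : (A ≃ {x // x ∈ S}) × (B ≃ {x // x ∉ S})) (b : B) :
    glue S e (Sum.inr b) = (e.2 b : I) := rfl

theorem glue_bij [Finite I] : Function.Bijective
    (fun y : (S : Finset I) × ((A ≃ {x // x ∈ S}) × (B ≃ {x // x ∉ S})) => glue y.1 y.2) := by
  classical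
  have hmem : ∀ (S : Finset I) (e : (A ≃ {x // x ∈ S}) × (B ≃ {x // x ∉ S})) (i : I),
      i ∈ S ↔ ∃ a, glue S e (Sum.inl a) = i := by
    intro S e i
    constructor
    · intro hi
      exact ⟨e.1.symm ⟨i, hi⟩, by rw [glue_inl, e.1.apply_symm_apply]⟩
    · rintro ⟨a, rfl⟩
      rw [glue_inl]
      exact (e.1 a).2
  constructor
  · rintro ⟨S, e⟩ ⟨S', e'⟩ h
    have h0 : glue S e = glue S' e' := h
    have h1 : S = S' := by
      ext i
      rw [hmem S e i, hmem S' e' i, h0]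
    subst h1
    congr 1
    refine Prod.ext ?_ ?_
    · ext a
      have := congrArg (fun f => f (Sum.inl a)) h0
      exact this
    · ext b
      have := congrArg (fun f => f (Sum.inr b)) h0
      exact this
  · intro f
    have hfin : (Set.range fun a => f (Sum.inl a)).Finite := Set.toFinite _
    let S : Finset I := hfin.toFinset
    have hS : ∀ i, i ∈ S ↔ ∃ a, f (Sum.inl a) = i := fun i => by
      rw [Set.Finite.mem_toFinset]
      rfl
    have hA : ∀ a, f (Sum.inl a) ∈ S := fun a => (hS _).2 ⟨a, rfl⟩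
    have hB : ∀ b, f (Sum.inr b) ∉ S := fun b h => by
      obtain ⟨a, ha⟩ := (hS _).1 h
      exact Sum.inl_ne_inr (f.injective ha)
    let e1 : A ≃ {x // x ∈ S} := Equiv.ofBijective (fun a => ⟨f (Sum.inl a), hA a⟩) (by
      constructor
      · intro a a' h
        exact Sum.inl_injective (f.injective (congrArg Subtype.val h))
      · rintro ⟨i, hi⟩
        obtain ⟨a, ha⟩ := (hS _).1 hi
        exact ⟨a, Subtype.ext ha⟩)
    let e2 : B ≃ {x // x ∉ S} := Equiv.ofBijective (fun b => ⟨f (Sum.inr b), hB b⟩) (by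
      constructor
      · intro b b' h
        exact Sum.inr_injective (f.injective (congrArg Subtype.val h))
      · rintro ⟨i, hi⟩
        obtain ⟨c, hc⟩ := f.surjective i
        rcases c with a | b
        · exact absurd (hc ▸ hA a) hi
        · exact ⟨b, Subtype.ext hc⟩)
    refine ⟨⟨S, e1, e2⟩, ?_⟩
    ext c
    rcases c with a | b <;> rfl

theorem card_glue [Fintype A] [Fintype B] [Fintype I] (p : (A ⊕ B ≃ I) → Prop) :
    Nat.card {e // p e} = ∑ S : Finset I,
      Nat.card {y : (A ≃ {x // x ∈ S}) × (B ≃ {x // x ∉ S}) // p (glue S y)} := by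
  classical
  rw [← Nat.card_sigma]
  refine (Nat.card_congr ?_).symm
  let E := Equiv.ofBijective _ (glue_bij (A := A) (B := B) (I := I))
  refine Equiv.trans ?_ (Equiv.subtypeEquiv E (p := fun y => p (glue y.1 y.2)) (q := p)
    (fun y => Iff.rfl))
  exact ⟨fun y => ⟨⟨y.1, y.2.1⟩, y.2.2⟩, fun y => ⟨y.1.1, ⟨y.1.2, y.2⟩⟩, fun _ => rfl, fun _ => rfl⟩

end Glue

end Pool.Agent.Helper36.EP
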