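import Pool.Agent.Helper36.EP.Split

/-!
# The counts of a disjoint union
-/

set_option autoImplicit false

namespace Pool.Agent.Helper36.EP

open Relation

section Run

variable {P Q : Type} [PartialOrder P] [PartialOrder Q]

theorem upInl : UpEmb (Sum.inl : P → P ⊕ Q) :=
  ⟨fun _ _ => Sum.inl_lt_inl_iff, Sum.inl_injective, fun x z h => by
    rcases z with y | y
    · exact ⟨y, rfl⟩
    · exact absurd h Sum.not_inl_lt_inr⟩

theorem upInr : UpEmb (Sum.inr : Q → P ⊕ Q) :=
  ⟨fun _ _ => Sum.inr_lt_inr_iff, Sum.inr_injective, fun x z h => by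
    rcases z with y | y
    · exact absurd h Sum.not_inr_lt_inl
    · exact ⟨y, rfl⟩⟩

/-- an element which is not above the smallest one is not on the path -/
theorem not_onPath {R : Type} [PartialOrder R] {L : R → ℕ} (hL : Function.Injective L) {m x : R}
    (hm : ∀ z, L m ≤ L z) (hx : ¬ m ≤ x) : ¬ OnPath L x := by
  rintro ⟨m', hm', h⟩
  have h1 : m' = m := hL (le_antisymm (hm' _) (hm _))
  rw [h1] at h
  exact hx (rtg_le h)

theorem stp_of_not {R : Type} [PartialOrder R] {L : R → ℕ} {x : R} (h : ¬ OnPath L x) (N : ℕ) :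
    stp L N x = L x := by
  unfold stp
  rw [nxt_of_not h]
  rfl

variable [Fintype P] [Fintype Q]

/-- number of labels below `k` in a part -/
def low {A : Type} [Fintype A] (L : A → ℕ) (k : ℕ) : ℕ := (Finset.univ.filter fun x => L x < k).card

omit [PartialOrder P] in
theorem low_succ_of_mem {L : P → ℕ} (hL : Function.Injective L) {k : ℕ} {a : P} (ha : L a = k) :
    low L (k + 1) = low L k + 1 := by
  classical
  unfold low
  have h1 : (Finset.univ.filter fun x => L x < k + 1) =
      insert a (Finset.univ.filter fun x => L x < k) := by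
    ext x
    rw [Finset.mem_insert, Finset.mem_filter, Finset.mem_filter]
    constructor
    · rintro ⟨_, h⟩
      by_cases hx : L x = k
      · left
        exact hL (hx.trans ha.symm)
      · right
        exact ⟨Finset.mem_univ _, by omega⟩
    · rintro (rfl | ⟨_, h⟩)
      · exact ⟨Finset.mem_univ _, by omega⟩
      · exact ⟨Finset.mem_univ _, by omega⟩
  rw [h1, Finset.card_insert_of_notMem]
  intro h
  have := (Finset.mem_filter.1 h).2
  omega

omit [PartialOrder P] in
theorem low_succ_of_not {L : P → ℕ} {k : ℕ} (ha : ∀ a, L a ≠ k) :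
    low L (k + 1) = low L k := by
  unfold low
  congr 1
  ext x
  rw [Finset.mem_filter, Finset.mem_filter]
  have := ha x
  constructor
  · rintro ⟨_, h⟩
    exact ⟨Finset.mem_univ _, by omega⟩
  · rintro ⟨_, h⟩
    exact ⟨Finset.mem_univ _, by omega⟩

theorem union_run {n : ℕ} {L : P ⊕ Q → ℕ} (hL : Function.Injective L)
    (hr : Set.range L = Set.Iio n) (k : ℕ) (hk : k ≤ n) : ∃ (L' : P ⊕ Q → ℕ) (j : ℕ), Rn L k L' ∧
      Set.range L' = Set.Ico k (n + k) ∧ low (L ∘ Sum.inl) k + j = k ∧
      Rn (L ∘ Sum.inl) (low (L ∘ Sum.inl) k) (L' ∘ Sum.inl) ∧ Rn (L ∘ Sum.inr) j (L' ∘ Sum.inr) ∧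
      ∀ v, k ≤ v → v < n → (v ∈ Set.range (L' ∘ Sum.inl) ↔ v ∈ Set.range (L ∘ Sum.inl)) := by
  induction k with
  | zero =>
    have h0 : low (L ∘ Sum.inl) 0 = 0 := by
      unfold low
      rw [Finset.card_eq_zero, Finset.filter_eq_empty_iff]
      intro x _
      exact Nat.not_lt_zero _
    refine ⟨L, 0, Rn.zero L, ?_, by rw [h0], by rw [h0]; exact Rn.zero _, Rn.zero _,
      fun _ _ _ => Iff.rfl⟩
    rw [hr]
    ext v
    simp
  | succ k ih =>
    obtain ⟨L', j, h1, h2, h3, h4, h5, h6⟩ := ih (by omega)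
    have hinj := h1.inj hL
    have hN : ∀ x, L' x < n + k := fun x => by
      have : L' x ∈ Set.Ico k (n + k) := by
        rw [← h2]
        exact ⟨x, rfl⟩
      exact this.2
    have hge : ∀ x, k ≤ L' x := fun x => by
      have : L' x ∈ Set.Ico k (n + k) := by
        rw [← h2]
        exact ⟨x, rfl⟩
      exact this.1
    have hkr : k ∈ Set.range L' := by
      rw [h2]
      exact ⟨le_rfl, by omega⟩
    obtain ⟨m, hm⟩ := hkr
    have hmin : ∀ z, L' m ≤ L' z := fun z => by
      rw [hm]
      exact hge z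
    have hrange : Set.range (stp L' (n + k)) = Set.Ico (k + 1) (n + (k + 1)) := by
      rw [range_stp hinj hmin, h2, hm]
      ext v
      simp only [Set.mem_insert_iff, Set.mem_sdiff, Set.mem_Ico, Set.mem_singleton_iff]
      omega
    have hinl : Function.Injective (L ∘ (Sum.inl : P → P ⊕ Q)) := hL.comp Sum.inl_injective
    rcases m with a | b
    · -- the smallest label is on the left
      have e1 : stp L' (n + k) ∘ Sum.inl = stp (L' ∘ Sum.inl) (n + k) :=
        upInl.stp hinj (fun x => upInl.onPath hinj hmin x) _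
      have e2 : stp L' (n + k) ∘ Sum.inr = L' ∘ Sum.inr := by
        funext y
        exact stp_of_not (not_onPath hinj hmin (Sum.not_inl_le_inr)) _
      have hka : k ∈ Set.range (L ∘ Sum.inl) := (h6 k le_rfl (by omega)).1 ⟨a, hm⟩
      obtain ⟨a', ha'⟩ := hka
      have hlow := low_succ_of_mem hinl ha'
      refine ⟨stp L' (n + k), j, h1.succ hN, hrange, by rw [hlow]; omega, ?_, ?_, ?_⟩
      · rw [hlow, e1]
        exact h4.succ fun x => hN _
      · rw [e2]
        exact h5
      · intro v hv1 hv2
        rw [← h6 v (by omega) hv2, e1, range_stp (hinj.comp Sum.inl_injective)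
          (m := a) (fun z => hmin _)]
        simp only [Set.mem_insert_iff, Set.mem_sdiff, Set.mem_singleton_iff, Function.comp_apply, hm]
        constructor
        · rintro (h | ⟨h, _⟩)
          · omega
          · exact h
        · intro h
          right
          exact ⟨h, by omega⟩
    · have e1 : stp L' (n + k) ∘ Sum.inr = stp (L' ∘ Sum.inr) (n + k) :=
        upInr.stp hinj (fun x => upInr.onPath hinj hmin x) _
      have e2 : stp L' (n + k) ∘ Sum.inl = L' ∘ Sum.inl := by
        funext y
        exact stp_of_not (not_onPath hinj hmin (Sum.not_inr_le_inl)) _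
      have hka : k ∉ Set.range (L' ∘ Sum.inl) := by
        rintro ⟨a, ha⟩
        exact Sum.inl_ne_inr (hinj (ha.trans hm.symm))
      rw [h6 k le_rfl (by omega)] at hka
      have hlow := low_succ_of_not (L := L ∘ Sum.inl) (k := k) (fun a ha => hka ⟨a, ha⟩)
      refine ⟨stp L' (n + k), j + 1, h1.succ hN, hrange, by rw [hlow]; omega, ?_, ?_, ?_⟩
      · rw [hlow, e2]
        exact h4
      · rw [e1]
        exact h5.succ fun x => hN _
      · intro v hv1 hv2
        rw [e2]
        exact h6 v (by omega) hv2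

omit [Fintype P] [Fintype Q] in
theorem strictMono_sum {L : P ⊕ Q → ℕ} :
    StrictMono L ↔ StrictMono (L ∘ Sum.inl) ∧ StrictMono (L ∘ Sum.inr) := by
  constructor
  · intro h
    exact ⟨fun x y hxy => h (Sum.inl_lt_inl_iff.2 hxy), fun x y hxy => h (Sum.inr_lt_inr_iff.2 hxy)⟩
  · rintro ⟨h1, h2⟩ x y hxy
    rcases x with x | x <;> rcases y with y | y
    · exact h1 (Sum.inl_lt_inl_iff.1 hxy)
    · exact absurd hxy Sum.not_inl_lt_inr
    · exact absurd hxy Sum.not_inr_lt_inl
    · exact h2 (Sum.inr_lt_inr_iff.1 hxy)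

theorem union_srt {n : ℕ} {L : P ⊕ Q → ℕ} (hL : Function.Injective L)
    (hr : Set.range L = Set.Iio n) {k : ℕ} (hk : k ≤ n) :
    Srt L k ↔ Srt (L ∘ Sum.inl) (low (L ∘ Sum.inl) k) ∧
      Srt (L ∘ Sum.inr) (k - low (L ∘ Sum.inl) k) := by
  obtain ⟨L', j, h1, h2, h3, h4, h5, h6⟩ := union_run hL hr k hk
  have hj : k - low (L ∘ Sum.inl) k = j := by omega
  rw [hj, h1.srt_iff, h4.srt_iff, h5.srt_iff, strictMono_sum]

end Run

/-! ### counting subsets -/

/-- subsets of size `p` with `i` elements in a given part -/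
theorem card_sets {I : Type} [Fintype I] [DecidableEq I] (A : Finset I) {p i : ℕ} (hi : i ≤ p) :
    (Finset.univ.filter fun S : Finset I => S.card = p ∧ (S ∩ A).card = i).card =
      A.card.choose i * Aᶜ.card.choose (p - i) := by
  rw [← Finset.card_powersetCard, ← Finset.card_powersetCard, ← Finset.card_product]
  refine Finset.card_nbij' (fun S => (S ∩ A, S ∩ Aᶜ)) (fun T => T.1 ∪ T.2) ?_ ?_ ?_ ?_
  · intro S hS
    have h1 := (Finset.mem_filter.1 hS).2
    have h2 : (S ∩ A).card + (S ∩ Aᶜ).card = S.card := by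
      rw [← Finset.sdiff_eq_inter_compl, add_comm]
      exact Finset.card_sdiff_add_card_inter S A
    refine Finset.mem_product.2 ⟨Finset.mem_powersetCard.2 ⟨Finset.inter_subset_right, h1.2⟩,
      Finset.mem_powersetCard.2 ⟨Finset.inter_subset_right, ?_⟩⟩
    simp only
    omega
  · rintro ⟨T1, T2⟩ hT
    obtain ⟨h1, h2⟩ := Finset.mem_product.1 hT
    obtain ⟨h3, h4⟩ := Finset.mem_powersetCard.1 h1
    obtain ⟨h5, h6⟩ := Finset.mem_powersetCard.1 h2
    have hd : Disjoint T1 T2 := Finset.disjoint_of_subset_left h3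
      (Finset.disjoint_of_subset_right h5 disjoint_compl_right)
    have h7 : (T1 ∪ T2) ∩ A = T1 := by
      rw [Finset.union_inter_distrib_right, Finset.inter_eq_left.2 h3]
      have : T2 ∩ A = ∅ := by
        rw [← Finset.disjoint_iff_inter_eq_empty]
        exact Finset.disjoint_of_subset_left h5 disjoint_compl_left
      rw [this, Finset.union_empty]
    refine Finset.mem_filter.2 ⟨Finset.mem_univ _, ?_, ?_⟩
    · simp only at h4 h6 ⊢
      rw [Finset.card_union_of_disjoint hd, h4, h6]
      omega
    · simp only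
      rw [h7]
      exact h4
  · intro S _
    simp only
    rw [← Finset.inter_union_distrib_left, Finset.union_compl, Finset.inter_univ]
  · rintro ⟨T1, T2⟩ hT
    obtain ⟨h1, h2⟩ := Finset.mem_product.1 hT
    obtain ⟨h3, -⟩ := Finset.mem_powersetCard.1 h1
    obtain ⟨h5, -⟩ := Finset.mem_powersetCard.1 h2
    simp only at h3 h5 ⊢
    rw [Finset.union_inter_distrib_right, Finset.union_inter_distrib_right,
      Finset.inter_eq_left.2 h3, Finset.inter_eq_left.2 h5]
    have e1 : T2 ∩ A = ∅ := by
      rw [← Finset.disjoint_iff_inter_eq_empty]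
      exact Finset.disjoint_of_subset_left h5 disjoint_compl_left
    have e2 : T1 ∩ Aᶜ = ∅ := by
      rw [← Finset.disjoint_iff_inter_eq_empty]
      exact Finset.disjoint_of_subset_left h3 disjoint_compl_right
    rw [e1, e2, Finset.union_empty, Finset.empty_union]

end Pool.Agent.Helper36.EP
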