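import Pool.Agent.Helper36.EP.Union
import Pool.Agent.Helper36.EP.Liggett

/-!
# The counts of a disjoint union are given by the binomial convolution
-/

set_option autoImplicit false

namespace Pool.Agent.Helper36.EP

open Finset

variable {P Q : Type} [PartialOrder P] [PartialOrder Q] [Fintype P] [Fintype Q]

/-- the part of the subset below `k` -/
def blw (n k : ℕ) : Finset (Fin n) := univ.filter fun i => (i : ℕ) < k

theorem card_blw {n k : ℕ} (hk : k ≤ n) : (blw n k).card = k := by
  unfold blw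
  rw [Fin.card_filter_val_lt]
  omega

omit [PartialOrder P] in
theorem low_eq {n : ℕ} (S : Finset (Fin n)) (e : P ≃ {x // x ∈ S}) (k : ℕ) :
    low (fun a => (((e a : {x // x ∈ S}) : Fin n) : ℕ)) k = (S ∩ blw n k).card := by
  unfold low
  refine card_bij (fun a _ => ((e a : {x // x ∈ S}) : Fin n)) ?_ ?_ ?_
  · intro a ha
    exact mem_inter.2 ⟨(e a).2, mem_filter.2 ⟨mem_univ _, (mem_filter.1 ha).2⟩⟩
  · intro a _ b _ h
    exact e.injective (Subtype.ext h)
  · intro i hi
    obtain ⟨h1, h2⟩ := mem_inter.1 hi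
    refine ⟨e.symm ⟨i, h1⟩, ?_, ?_⟩
    · refine mem_filter.2 ⟨mem_univ _, ?_⟩
      simp only [Equiv.apply_symm_apply]
      exact (mem_filter.1 h2).2
    · rw [e.apply_symm_apply]

theorem card_S {n : ℕ} (hn' : n = Fintype.card P + Fintype.card Q) (S : Finset (Fin n)) {k : ℕ}
    (hk : k ≤ n) :
    Nat.card {y : (P ≃ {x // x ∈ S}) × (Q ≃ {x // x ∉ S}) //
      Srt (fun z => ((glue S y z : Fin n) : ℕ)) k} =
    if S.card = Fintype.card P then
      aa P (S ∩ blw _ k).card * aa Q (k - (S ∩ blw _ k).card) else 0 := by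
  classical
  -- the condition
  have h1 : ∀ y : (P ≃ {x // x ∈ S}) × (Q ≃ {x // x ∉ S}),
      Srt (fun z => ((glue S y z : Fin n) : ℕ)) k ↔
      Srt (fun a => (((y.1 a : {x // x ∈ S}) : Fin n) : ℕ)) (S ∩ blw n k).card ∧
      Srt (fun b => (((y.2 b : {x // x ∉ S}) : Fin n) : ℕ)) (k - (S ∩ blw n k).card) := by
    intro y
    have hinj : Function.Injective (fun z => ((glue S y z : Fin n) : ℕ)) :=
      Fin.val_injective.comp (glue S y).injective
    have hran : Set.range (fun z => ((glue S y z : Fin n) : ℕ)) = Set.Iio n := by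
      ext v
      constructor
      · rintro ⟨z, rfl⟩
        exact (glue S y z).2
      · intro hv
        exact ⟨(glue S y).symm ⟨v, hv⟩, by simp only [Equiv.apply_symm_apply]⟩
    rw [union_srt hinj hran hk]
    have h2 : ((fun z => ((glue S y z : Fin n) : ℕ)) ∘ (Sum.inl : P → P ⊕ Q)) =
        fun a => (((y.1 a : {x // x ∈ S}) : Fin n) : ℕ) := rfl
    have h3 : ((fun z => ((glue S y z : Fin n) : ℕ)) ∘ (Sum.inr : Q → P ⊕ Q)) =
        fun b => (((y.2 b : {x // x ∉ S}) : Fin n) : ℕ) := rfl
    rw [h2, h3, low_eq]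
  have h2 : Nat.card {y : (P ≃ {x // x ∈ S}) × (Q ≃ {x // x ∉ S}) //
      Srt (fun z => ((glue S y z : Fin n) : ℕ)) k} =
      cnt P (fun x : {x // x ∈ S} => ((x : Fin n) : ℕ)) (S ∩ blw n k).card *
      cnt Q (fun x : {x // x ∉ S} => ((x : Fin n) : ℕ)) (k - (S ∩ blw n k).card) := by
    unfold cnt
    rw [← Nat.card_prod]
    refine Nat.card_congr ((Equiv.subtypeEquivRight h1).trans ?_)
    exact Equiv.subtypeProdEquivProd
      (p := fun e : P ≃ {x // x ∈ S} =>
        Srt (fun a => (((e a : {x // x ∈ S}) : Fin n) : ℕ)) (S ∩ blw n k).card)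
      (q := fun e : Q ≃ {x // x ∉ S} =>
        Srt (fun b => (((e b : {x // x ∉ S}) : Fin n) : ℕ)) (k - (S ∩ blw n k).card))
  rw [h2]
  by_cases hS : S.card = Fintype.card P
  · rw [if_pos hS]
    have c1 : Fintype.card {x // x ∈ S} = Fintype.card P := by rw [Fintype.card_coe, hS]
    have c2 : Fintype.card {x // x ∉ S} = Fintype.card Q := by
      rw [Fintype.card_subtype_compl, Fintype.card_coe, Fintype.card_fin, hS, hn']
      omega
    rw [← aa_eq_cnt (P := P) (v := fun x : {x // x ∈ S} => ((x : Fin n) : ℕ))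
      (fun a b hab => hab) c1, ← aa_eq_cnt (P := Q)
      (v := fun x : {x // x ∉ S} => ((x : Fin n) : ℕ)) (fun a b hab => hab) c2]
  · rw [if_neg hS, cnt_eq_zero (P := P) (by rw [Fintype.card_coe]; exact hS), zero_mul]

theorem aa_union_nat {k : ℕ} (hk : k ≤ Fintype.card (P ⊕ Q)) :
    aa (P ⊕ Q) k = ∑ i ∈ range (k + 1),
      (univ.filter fun S : Finset (Fin (Fintype.card (P ⊕ Q))) =>
        S.card = Fintype.card P ∧ (S ∩ blw _ k).card = i).card * (aa P i * aa Q (k - i)) := by
  classical
  rw [aa_eq_cnt (P := P ⊕ Q) (I := Fin (Fintype.card (P ⊕ Q))) (v := fun i => (i : ℕ))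
    (fun a b hab => hab) (Fintype.card_fin _)]
  unfold cnt
  rw [card_glue (A := P) (B := Q) (fun e => Srt (fun x => ((e x : Fin _) : ℕ)) k)]
  rw [sum_congr rfl fun S _ => card_S Fintype.card_sum S hk, ← sum_filter]
  rw [← sum_fiberwise_of_maps_to (t := range (k + 1)) (g := fun S => (S ∩ blw _ k).card)]
  · refine sum_congr rfl fun i _ => ?_
    rw [filter_filter]
    rw [sum_congr rfl (g := fun _ => aa P i * aa Q (k - i))]
    · rw [sum_const, smul_eq_mul]
    · intro S hS
      rw [(mem_filter.1 hS).2.2]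
  · intro S _
    rw [mem_range]
    have h1 : (S ∩ blw (Fintype.card (P ⊕ Q)) k).card ≤ (blw (Fintype.card (P ⊕ Q)) k).card :=
      card_le_card inter_subset_right
    rw [card_blw hk] at h1
    omega

/-- the counts of a disjoint union -/
theorem aa_union {k : ℕ} (hk : k ≤ Fintype.card P + Fintype.card Q) :
    (aa (P ⊕ Q) k : ℝ) = ∑ l ∈ antidiagonal k, (k.choose l.1 : ℝ) *
      om (fun i => (aa P i : ℝ)) (fun j => (aa Q j : ℝ)) (Fintype.card P) (Fintype.card Q) l.1 l.2 := by
  have hk' : k ≤ Fintype.card (P ⊕ Q) := by rwa [Fintype.card_sum]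
  rw [aa_union_nat hk', Nat.sum_antidiagonal_eq_sum_range_succ_mk]
  push_cast
  refine sum_congr rfl fun i hi => ?_
  have hik : i ≤ k := Nat.lt_succ_iff.1 (mem_range.1 hi)
  unfold om
  by_cases h1 : i ≤ Fintype.card P
  · rw [card_sets _ h1, card_blw hk', card_compl, card_blw hk', Fintype.card_fin]
    by_cases h2 : k - i ≤ Fintype.card Q
    · rw [if_pos ⟨h1, h2⟩]
      have h3 : Fintype.card (P ⊕ Q) - k = Fintype.card P - i + (Fintype.card Q - (k - i)) := by
        rw [Fintype.card_sum]
        omega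
      rw [h3]
      push_cast
      ring
    · rw [if_neg (fun h => h2 h.2)]
      have h3 : (Fintype.card (P ⊕ Q) - k).choose (Fintype.card P - i) = 0 := by
        apply Nat.choose_eq_zero_of_lt
        rw [Fintype.card_sum]
        omega
      rw [h3]
      simp
  · rw [if_neg (fun h => h1 h.1)]
    have h3 : (univ.filter fun S : Finset (Fin (Fintype.card (P ⊕ Q))) =>
        S.card = Fintype.card P ∧ (S ∩ blw _ k).card = i) = ∅ := by
      rw [filter_eq_empty_iff]
      rintro S _ ⟨h4, h5⟩
      have h6 : (S ∩ blw (Fintype.card (P ⊕ Q)) k).card ≤ S.card := card_le_card inter_subset_left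
      omega
    rw [h3, card_empty]
    simp

/-- there are linear extensions -/
theorem exists_linear (P : Type) [PartialOrder P] [Fintype P] :
    ∃ e : P ≃ Fin (Fintype.card P), StrictMono fun x => (e x : ℕ) := by
  classical
  let E : LinearExtension P ≃ P := Equiv.refl P
  have : Fintype (LinearExtension P) := Fintype.ofEquiv P E.symm
  let e : Fin (Fintype.card P) ≃o LinearExtension P :=
    Fintype.orderIsoFinOfCardEq (LinearExtension P) (Fintype.card_congr E)
  refine ⟨e.symm.toEquiv, fun x y hxy => ?_⟩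
  have h1 : toLinearExtension x ≤ toLinearExtension y := toLinearExtension.monotone hxy.le
  have h2 : toLinearExtension x ≠ toLinearExtension y := hxy.ne
  exact e.symm.strictMono (lt_of_le_of_ne h1 h2)

/-- positivity -/
theorem aa_pos (P : Type) [PartialOrder P] [Fintype P] (k : ℕ) : 0 < aa P k := by
  classical
  obtain ⟨e, he⟩ := exists_linear P
  rw [aa_eq_cnt (P := P) (I := Fin (Fintype.card P)) (v := fun i => (i : ℕ))
    (fun a b hab => hab) (Fintype.card_fin _)]
  unfold cnt
  have h1 : Srt (fun x => (e x : ℕ)) k :=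
    Srt.mono (Fin.val_injective.comp e.injective) (Nat.zero_le k) ⟨_, Rn.zero _, he⟩
  have : Nonempty {e : P ≃ Fin (Fintype.card P) // Srt (fun x => (e x : ℕ)) k} := ⟨⟨e, h1⟩⟩
  exact Nat.card_pos

/-- log-concavity up to the index `n` -/
theorem LogConc.ext {P : Type} [PartialOrder P] [Fintype P] (h : LogConc P) (i : ℕ)
    (hi : i + 2 ≤ Fintype.card P) : (aa P i : ℝ) * aa P (i + 2) ≤ (aa P (i + 1) : ℝ) ^ 2 := by
  have h1 : aa P i * aa P (i + 2) ≤ aa P (i + 1) ^ 2 := by
    by_cases h2 : i + 3 ≤ Fintype.card P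
    · exact h (i + 1) (by omega) (by omega)
    · rw [aa_full (P := P) (k := i + 2) (by omega), aa_full (P := P) (k := i + 1) (by omega), sq]
      exact Nat.mul_le_mul_right _ (aa_le i)
  exact_mod_cast h1

/-- closure under disjoint unions -/
theorem LogConc.union (hP : LogConc P) (hQ : LogConc Q) : LogConc (P ⊕ Q) := by
  intro i hi hin
  rw [Fintype.card_sum] at hin
  obtain ⟨k, rfl⟩ := Nat.exists_eq_add_of_le' hi
  rw [Nat.add_sub_cancel]
  have h1 := liggett (a := fun i => (aa P i : ℝ)) (b := fun j => (aa Q j : ℝ))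
    (p := Fintype.card P) (q := Fintype.card Q) (fun i _ => by exact_mod_cast aa_pos P i)
    (fun j _ => by exact_mod_cast aa_pos Q j) (fun i hi => hP.ext i hi) (fun j hj => hQ.ext j hj) k
  rw [← aa_union (P := P) (Q := Q) (k := k) (by omega),
    ← aa_union (P := P) (Q := Q) (k := k + 1) (by omega),
    ← aa_union (P := P) (Q := Q) (k := k + 2) (by omega)] at h1
  exact_mod_cast h1

end Pool.Agent.Helper36.EP
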